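import Mathlib
import Pool.Agent.H520R3.Weyl

set_option autoImplicit false

/-!
# Quadratic Gauss sums to odd moduli have modulus `√Q`
-/

namespace Pool.Agent.TH851.W

open Finset
open Pool.Agent.H520R3

lemma gauss_zmod (Q : ℕ) [NeZero Q] (A : ZMod Q) (hA : IsUnit (2 * A)) :
    ‖∑ x : ZMod Q, ZMod.stdAddChar (A * x ^ 2)‖ ^ 2 = Q := by
  set ψ : AddChar (ZMod Q) ℂ := ZMod.stdAddChar with hψ
  have hprim : ψ.IsPrimitive := ZMod.isPrimitive_stdAddChar Q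
  have h1 : (∑ x : ZMod Q, ψ (A * x ^ 2)) * (starRingEnd ℂ) (∑ y : ZMod Q, ψ (A * y ^ 2))
      = (Q : ℂ) := by
    rw [map_sum, mul_comm, sum_mul]
    have h2 : ∀ y ∈ (univ : Finset (ZMod Q)), (starRingEnd ℂ) (ψ (A * y ^ 2)) * ∑ x : ZMod Q, ψ (A * x ^ 2)
        = ∑ h : ZMod Q, ψ (A * h ^ 2) * ψ (y * (2 * A * h)) := by
      intro y _
      rw [mul_sum, ← Equiv.sum_comp (Equiv.addRight y)]
      apply sum_congr rfl
      intro h _
      rw [← AddChar.map_neg_eq_conj, ← AddChar.map_add_eq_mul, ← AddChar.map_add_eq_mul]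
      congr 1
      simp only [Equiv.coe_addRight]
      ring
    rw [sum_congr rfl h2, sum_comm]
    have h3 : ∀ h ∈ (univ : Finset (ZMod Q)), ∑ y : ZMod Q, ψ (A * h ^ 2) * ψ (y * (2 * A * h))
        = if h = 0 then (Q : ℂ) else 0 := by
      intro h _
      rw [← mul_sum, AddChar.sum_mulShift _ hprim]
      by_cases hh : h = 0
      · subst hh; simp
      · have : 2 * A * h ≠ 0 := by
          intro h0
          apply hh
          exact (IsUnit.mul_right_eq_zero hA).1 h0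
        rw [if_neg this, if_neg hh]; simp
    rw [sum_congr rfl h3]
    simp
  have h4 : ((‖∑ x : ZMod Q, ψ (A * x ^ 2)‖ ^ 2 : ℝ) : ℂ) = (Q : ℂ) := by
    rw [← h1, Complex.mul_conj, Complex.normSq_eq_norm_sq]
  exact_mod_cast h4

lemma e_eq_std (Q : ℕ) [NeZero Q] (j : ℤ) : e ((j : ℝ) / Q) = ZMod.stdAddChar ((j : ℤ) : ZMod Q) := by
  rw [ZMod.stdAddChar_coe]
  unfold e
  congr 1
  push_cast
  ring

lemma sum_range_zmod (Q : ℕ) [NeZero Q] (f : ZMod Q → ℂ) :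
    ∑ n ∈ range Q, f (n : ZMod Q) = ∑ x : ZMod Q, f x := by
  symm
  apply sum_bij' (fun (x : ZMod Q) _ => x.val) (fun (n : ℕ) _ => (n : ZMod Q))
  · intro x _; exact mem_range.2 (ZMod.val_lt x)
  · intro n _; exact mem_univ _
  · intro x _; exact ZMod.natCast_zmod_val x
  · intro n hn; exact ZMod.val_natCast_of_lt (mem_range.1 hn)
  · intro x _; rw [ZMod.natCast_zmod_val x]

lemma gauss_range (Q : ℕ) (hQ : 0 < Q) (A : ℤ) (hA : IsCoprime (2 * A) (Q : ℤ)) :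
    ‖∑ n ∈ range Q, e ((A : ℝ) / Q * (n : ℝ) ^ 2)‖ = Real.sqrt Q := by
  have : NeZero Q := ⟨hQ.ne'⟩
  have h1 : ∑ n ∈ range Q, e ((A : ℝ) / Q * (n : ℝ) ^ 2)
      = ∑ x : ZMod Q, ZMod.stdAddChar (((A : ℤ) : ZMod Q) * x ^ 2) := by
    rw [← sum_range_zmod Q (fun x => ZMod.stdAddChar (((A : ℤ) : ZMod Q) * x ^ 2))]
    apply sum_congr rfl
    intro n _
    have := e_eq_std Q (A * (n : ℤ) ^ 2)
    push_cast at this
    rw [← this]
    congr 1
    ring
  rw [h1]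
  have h2 := gauss_zmod Q ((A : ℤ) : ZMod Q) (by
    have : ((2 * A : ℤ) : ZMod Q) = 2 * ((A : ℤ) : ZMod Q) := by push_cast; ring
    rw [← this]
    obtain ⟨u, v, huv⟩ := hA
    have h3 : ((u * (2 * A) + v * (Q : ℤ) : ℤ) : ZMod Q) = 1 := by rw [huv]; simp
    push_cast at h3
    rw [ZMod.natCast_self, mul_zero, add_zero] at h3
    apply IsUnit.of_mul_eq_one ((u : ℤ) : ZMod Q)
    push_cast
    linear_combination h3)
  rw [← h2, Real.sqrt_sq (norm_nonneg _)]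

end Pool.Agent.TH851.W
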