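import Mathlib
import Pool.Agent.TH851.Gau

set_option autoImplicit false

/-!
# Lower bound for the quadratic Weyl sum near a rational point
-/

namespace Pool.Agent.TH851.W

open Finset
open Pool.Agent.H520R3

lemma e_period (Q : ℕ) (hQ : 0 < Q) (A : ℤ) (n : ℕ) :
    e ((A : ℝ) / Q * ((n + Q : ℕ) : ℝ) ^ 2) = e ((A : ℝ) / Q * (n : ℝ) ^ 2) := by
  have hQ' : (Q : ℝ) ≠ 0 := by exact_mod_cast hQ.ne'
  have : (A : ℝ) / Q * ((n + Q : ℕ) : ℝ) ^ 2
      = (A : ℝ) / Q * (n : ℝ) ^ 2 + ((A * (2 * n + Q) : ℤ) : ℝ) := by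
    push_cast; field_simp; ring
  rw [this, e_add_int]

lemma sum_shift_one (Q : ℕ) (f : ℕ → ℂ) (hf : f Q = f 0) :
    ∑ n ∈ range Q, f (n + 1) = ∑ n ∈ range Q, f n := by
  have h1 := sum_range_succ' f Q
  have h2 := sum_range_succ f Q
  rw [h1, hf] at h2
  exact add_right_cancel h2

lemma sum_periods (Q : ℕ) (f : ℕ → ℂ) (hf : ∀ n, f (n + Q) = f n) (k : ℕ) :
    ∑ n ∈ range (Q * k), f (n + 1) = k * ∑ n ∈ range Q, f n := by
  have hk : ∀ k n, f (Q * k + n) = f n := by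
    intro k
    induction k with
    | zero => intro n; simp
    | succ k ih =>
      intro n
      have : Q * (k + 1) + n = (Q * k + n) + Q := by ring
      rw [this, hf, ih]
  induction k with
  | zero => simp
  | succ k ih =>
    rw [Nat.mul_succ, sum_range_add, ih]
    have : ∀ x ∈ range Q, f (Q * k + x + 1) = f (x + 1) := by
      intro x _
      rw [add_assoc, hk]
    rw [sum_congr rfl this, sum_shift_one Q f (by have := hf 0; simpa using this)]
    push_cast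
    ring

lemma norm_sum_le_periods (Q : ℕ) (hQ : 0 < Q) (f : ℕ → ℂ) (hf : ∀ n, f (n + Q) = f n)
    (hf1 : ∀ n, ‖f n‖ ≤ 1) (u : ℕ) :
    ‖∑ n ∈ range u, f (n + 1)‖ ≤ (u : ℝ) / Q * ‖∑ n ∈ range Q, f n‖ + Q := by
  have hQ' : (0 : ℝ) < Q := by exact_mod_cast hQ
  have hu : u = Q * (u / Q) + u % Q := (Nat.div_add_mod u Q).symm
  conv_lhs => rw [hu]
  rw [sum_range_add, sum_periods Q f hf]
  refine (norm_add_le _ _).trans ?_
  apply add_le_add
  · rw [norm_mul, Complex.norm_natCast]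
    apply mul_le_mul_of_nonneg_right _ (norm_nonneg _)
    exact Nat.cast_div_le
  · refine (norm_sum_le _ _).trans ?_
    refine (sum_le_sum (fun n _ => hf1 _)).trans ?_
    simp only [sum_const, card_range, nsmul_eq_mul, mul_one]
    exact_mod_cast (Nat.mod_lt u hQ).le

lemma abel_approx (w z : ℕ → ℂ) (N : ℕ) :
    ‖(∑ n ∈ range N, w n * z n) - w N * ∑ n ∈ range N, z n‖
      ≤ ∑ n ∈ range N, ‖w (n + 1) - w n‖ * ‖∑ i ∈ range (n + 1), z i‖ := by
  induction N with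
  | zero => simp
  | succ N ih =>
    rw [sum_range_succ (fun n => w n * z n), sum_range_succ (fun n => ‖w (n + 1) - w n‖ * _)]
    have key : (∑ n ∈ range N, w n * z n) + w N * z N - w (N + 1) * ∑ n ∈ range (N + 1), z n
        = ((∑ n ∈ range N, w n * z n) - w N * ∑ n ∈ range N, z n)
          + (w N - w (N + 1)) * ∑ i ∈ range (N + 1), z i := by
      rw [sum_range_succ z]; ring
    rw [key]
    refine (norm_add_le _ _).trans (add_le_add ih ?_)
    rw [norm_mul, norm_sub_rev]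

/-- lower bound at a multiple of `Q` -/
theorem lower (Q : ℕ) (hQ : 0 < Q) (A : ℤ) (hA : IsCoprime (2 * A) (Q : ℤ)) (x : ℝ) (k : ℕ)
    (hβ : 2 * Real.pi * |x - A / Q| * (((Q * k : ℕ) : ℝ) ^ 2 + 2 * ((Q * k : ℕ) : ℝ)) ≤ 1 / 4)
    (hk : (Q : ℝ) ≤ k * Real.sqrt Q) :
    (k * Real.sqrt Q) / 2 ≤ ‖∑ n ∈ range (Q * k), e (x * ((n : ℝ) + 1) ^ 2)‖ := by
  have hQ' : (0 : ℝ) < Q := by exact_mod_cast hQ
  set β := x - A / Q with hβdef
  set N := Q * k with hN
  set f : ℕ → ℂ := fun n => e ((A : ℝ) / Q * (n : ℝ) ^ 2) with hf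
  set w : ℕ → ℂ := fun n => e (β * ((n : ℝ) + 1) ^ 2) with hw
  have hG := gauss_range Q hQ A hA
  have hsplit : ∀ n : ℕ, e (x * ((n : ℝ) + 1) ^ 2) = w n * f (n + 1) := by
    intro n
    rw [hw, hf]
    simp only
    rw [← e_add]
    congr 1
    rw [hβdef]
    push_cast
    ring
  have hper : ∀ n, f (n + Q) = f n := fun n => e_period Q hQ A n
  have hZN : ∑ n ∈ range N, f (n + 1) = k * ∑ n ∈ range Q, f n := sum_periods Q f hper k
  have hZ : ∀ u, u ≤ N → ‖∑ n ∈ range u, f (n + 1)‖ ≤ 2 * (k * Real.sqrt Q) := by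
    intro u hu
    have h1 := norm_sum_le_periods Q hQ f hper (fun n => (norm_e _).le) u
    have h2 : (u : ℝ) / Q ≤ k := by
      rw [div_le_iff₀ hQ']
      have : (u : ℝ) ≤ ((Q * k : ℕ) : ℝ) := by exact_mod_cast hu
      push_cast at this
      linarith
    have h3 : ‖∑ n ∈ range Q, f n‖ = Real.sqrt Q := hG
    rw [h3] at h1
    have h4 : (u : ℝ) / Q * Real.sqrt Q ≤ k * Real.sqrt Q :=
      mul_le_mul_of_nonneg_right h2 (Real.sqrt_nonneg _)
    linarith
  have hab := abel_approx w (fun n => f (n + 1)) N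
  have hvar : ∑ n ∈ range N, ‖w (n + 1) - w n‖ * ‖∑ i ∈ range (n + 1), f (i + 1)‖
      ≤ (2 * Real.pi * |β| * ((N : ℝ) ^ 2 + 2 * N)) * (2 * (k * Real.sqrt Q)) := by
    have h1 : ∀ n ∈ range N, ‖w (n + 1) - w n‖ * ‖∑ i ∈ range (n + 1), f (i + 1)‖
        ≤ (2 * Real.pi * |β| * (2 * n + 3)) * (2 * (k * Real.sqrt Q)) := by
      intro n hn
      have hn' := mem_range.1 hn
      apply mul_le_mul _ (hZ (n + 1) (by omega)) (norm_nonneg _) (by positivity)
      rw [hw]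
      simp only
      refine (norm_e_sub_e_le _ _).trans ?_
      have : β * (((n + 1 : ℕ) : ℝ) + 1) ^ 2 - β * ((n : ℝ) + 1) ^ 2 = β * (2 * n + 3) := by
        push_cast; ring
      rw [this, abs_mul, abs_of_nonneg (by positivity : (0 : ℝ) ≤ 2 * (n : ℝ) + 3)]
      apply le_of_eq; ring
    refine (sum_le_sum h1).trans ?_
    rw [← sum_mul, ← mul_sum]
    apply le_of_eq
    congr 2
    clear * -
    induction N with
    | zero => simp
    | succ N ih => rw [sum_range_succ, ih]; push_cast; ring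
  have hpos : 0 ≤ k * Real.sqrt Q := by positivity
  have hS : ‖∑ n ∈ range N, e (x * ((n : ℝ) + 1) ^ 2)‖ = ‖∑ n ∈ range N, w n * f (n + 1)‖ := by
    congr 1
    exact sum_congr rfl (fun n _ => hsplit n)
  rw [hS]
  have h5 : ‖w N * ∑ n ∈ range N, f (n + 1)‖ = k * Real.sqrt Q := by
    rw [norm_mul, hZN, norm_mul, Complex.norm_natCast]
    have : ‖w N‖ = 1 := norm_e _
    rw [this, one_mul]
    congr 1
  have h6 : ‖w N * ∑ n ∈ range N, f (n + 1)‖ ≤ ‖∑ n ∈ range N, w n * f (n + 1)‖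
      + ‖(∑ n ∈ range N, w n * f (n + 1)) - w N * ∑ n ∈ range N, f (n + 1)‖ := by
    have := norm_sub_le (∑ n ∈ range N, w n * f (n + 1))
      ((∑ n ∈ range N, w n * f (n + 1)) - w N * ∑ n ∈ range N, f (n + 1))
    rwa [sub_sub_cancel] at this
  have h7 : (2 * Real.pi * |β| * ((N : ℝ) ^ 2 + 2 * N)) * (2 * (k * Real.sqrt Q))
      ≤ 1 / 4 * (2 * (k * Real.sqrt Q)) := by
    apply mul_le_mul_of_nonneg_right hβ (by positivity)
  linarith

end Pool.Agent.TH851.W
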