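import Mathlib
import Pool.Agent.H520R3.Weyl

set_option autoImplicit false

/-!
# The classical bound for quadratic Weyl sums
-/

namespace Pool.Agent.TH851.W

open Finset
open Pool.Agent.H520R3

/-- auxiliary weight -/
noncomputable def hh (r : ℕ) : ℝ := if 2 ≤ r then 1 / ((r : ℝ) - 1) else 0

lemma hh_nonneg (r : ℕ) : 0 ≤ hh r := by
  unfold hh
  split_ifs with h
  · have : (2 : ℝ) ≤ r := by exact_mod_cast h
    apply div_nonneg (by norm_num); linarith
  · exact le_rfl

lemma sum_hh (q : ℕ) (hq : 0 < q) : ∑ r ∈ range q, hh r ≤ 1 + Real.log q := by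
  have hlog : 0 ≤ Real.log q := Real.log_natCast_nonneg q
  rcases q with _ | _ | n
  · omega
  · simp [hh]
  · rw [sum_range_succ', sum_range_succ']
    have h0 : hh 0 = 0 := by simp [hh]
    have h1 : hh (0 + 1) = 0 := by simp [hh]
    rw [h0, h1]
    have h2 : ∑ k ∈ range n, hh (k + 1 + 1) = ((harmonic n : ℚ) : ℝ) := by
      unfold harmonic
      push_cast
      apply sum_congr rfl
      intro i _
      unfold hh
      rw [if_pos (by omega)]
      push_cast
      rw [one_div]
      congr 1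
      ring
    rw [h2]
    have h3 := harmonic_le_one_add_log n
    have h4 : Real.log n ≤ Real.log ((n + 1 + 1 : ℕ) : ℝ) := by
      rcases Nat.eq_zero_or_pos n with h | h
      · subst h; simp; exact Real.log_nonneg (by norm_num)
      · apply Real.log_le_log (by exact_mod_cast h)
        push_cast; linarith
    linarith

/-- bound by residue -/
noncomputable def ww (q : ℕ) (N : ℝ) (r : ℕ) : ℝ :=
  if 2 ≤ r ∧ r + 3 ≤ q then q * hh r + q * hh (q - 1 - r) else N

lemma ww_nonneg (q : ℕ) (N : ℝ) (hN : 0 ≤ N) (r : ℕ) : 0 ≤ ww q N r := by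
  unfold ww
  split_ifs
  · have := hh_nonneg r
    have := hh_nonneg (q - 1 - r)
    positivity
  · exact hN

lemma sum_ww (q : ℕ) (hq : 0 < q) (N : ℝ) (hN : 0 ≤ N) :
    ∑ r ∈ range q, ww q N r ≤ 4 * N + 2 * (q * (1 + Real.log q)) := by
  have h1 : ∀ r ∈ range q, ww q N r ≤ (q * hh r + q * hh (q - 1 - r))
      + (if 2 ≤ r ∧ r + 3 ≤ q then 0 else N) := by
    intro r _
    unfold ww
    have := hh_nonneg r
    have := hh_nonneg (q - 1 - r)
    split_ifs
    · linarith
    · have : 0 ≤ q * hh r + q * hh (q - 1 - r) := by positivity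
      linarith
  refine (sum_le_sum h1).trans ?_
  rw [sum_add_distrib, sum_add_distrib, ← mul_sum, ← mul_sum]
  have h2 : ∑ r ∈ range q, hh (q - 1 - r) = ∑ r ∈ range q, hh r := sum_range_reflect hh q
  rw [h2]
  have h3 := sum_hh q hq
  have h4 : ∑ r ∈ range q, (if 2 ≤ r ∧ r + 3 ≤ q then (0 : ℝ) else N) ≤ 4 * N := by
    rw [← sum_filter_not_add_sum_filter (range q) (fun r => 2 ≤ r ∧ r + 3 ≤ q)]
    have e1 : ∑ x ∈ (range q).filter (fun r => 2 ≤ r ∧ r + 3 ≤ q),
        (if 2 ≤ x ∧ x + 3 ≤ q then (0 : ℝ) else N) = 0 := by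
      apply sum_eq_zero
      intro x hx
      rw [if_pos (mem_filter.1 hx).2]
    have e2 : ∑ x ∈ (range q).filter (fun r => ¬ (2 ≤ r ∧ r + 3 ≤ q)),
        (if 2 ≤ x ∧ x + 3 ≤ q then (0 : ℝ) else N) ≤ 4 * N := by
      have e3 : ∀ x ∈ (range q).filter (fun r => ¬ (2 ≤ r ∧ r + 3 ≤ q)),
          (if 2 ≤ x ∧ x + 3 ≤ q then (0 : ℝ) else N) = N := by
        intro x hx
        rw [if_neg (mem_filter.1 hx).2]
      rw [sum_congr rfl e3, sum_const, nsmul_eq_mul]
      apply mul_le_mul_of_nonneg_right _ hN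
      have e4 : (range q).filter (fun r => ¬ (2 ≤ r ∧ r + 3 ≤ q)) ⊆ {0, 1, q - 1, q - 2} := by
        intro x hx
        simp only [mem_filter, mem_range, mem_insert, mem_singleton] at *
        omega
      have e5 := card_le_card e4
      have e6 : ({0, 1, q - 1, q - 2} : Finset ℕ).card ≤ 4 := card_le_four
      exact_mod_cast e5.trans e6
    rw [e1]
    linarith
  have h5 : (q : ℝ) * ∑ r ∈ range q, hh r ≤ q * (1 + Real.log q) :=
    mul_le_mul_of_nonneg_left h3 (Nat.cast_nonneg _)
  linarith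

/-- block lemma -/
lemma block_sum (t : ℝ) (a : ℤ) (q : ℕ) (hq : 0 < q) (hcop : IsCoprime a (q : ℤ))
    (ht : |t - a / q| ≤ 1 / (q : ℝ) ^ 2) (G : ℕ → ℝ) (N : ℝ) (hN : 0 ≤ N)
    (hGN : ∀ k, G k ≤ N)
    (hGκ : ∀ (k : ℕ) (κ : ℝ), 0 < κ → (∀ n : ℤ, κ < |t * k - n|) → G k ≤ 1 / (2 * κ)) (k0 : ℕ) :
    ∑ j ∈ range q, G (k0 + j) ≤ 4 * N + 2 * (q * (1 + Real.log q)) := by
  have hq' : (0 : ℝ) < q := by exact_mod_cast hq
  have hqz : (0 : ℤ) < q := by exact_mod_cast hq
  set c : ℤ := ⌊(q : ℝ) * (t * k0)⌋ with hc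
  set ρ : ℝ := (q : ℝ) * (t * k0) - c with hρ
  have hρ0 : 0 ≤ ρ := by rw [hρ]; have := Int.floor_le ((q : ℝ) * (t * k0)); linarith
  have hρ1 : ρ < 1 := by rw [hρ]; have := Int.lt_floor_add_one ((q : ℝ) * (t * k0)); linarith
  set R : ℕ → ℕ := fun j => ((c + j * a) % (q : ℤ)).toNat with hR
  have hRz : ∀ j : ℕ, ((R j : ℕ) : ℤ) = (c + j * a) % (q : ℤ) := fun j => by
    rw [hR]
    exact Int.toNat_of_nonneg (Int.emod_nonneg _ hqz.ne')
  have hRlt : ∀ j : ℕ, R j < q := fun j => by
    have := Int.emod_lt_of_pos (c + j * a) hqz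
    rw [← hRz] at this
    exact_mod_cast this
  have hinj : Set.InjOn R (range q : Finset ℕ) := by
    intro j hj j' hj' h
    have hj1 := mem_range.1 (mem_coe.1 hj)
    have hj1' := mem_range.1 (mem_coe.1 hj')
    have h1 : (c + j * a) % (q : ℤ) = (c + j' * a) % (q : ℤ) := by rw [← hRz, ← hRz, h]
    have h2 : (q : ℤ) ∣ (c + j' * a) - (c + j * a) := Int.ModEq.dvd h1
    have h3 : (q : ℤ) ∣ (((j' : ℤ) - j)) * a := by
      have : (c + j' * a) - (c + j * a) = ((j' : ℤ) - j) * a := by ring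
      rwa [this] at h2
    have h4 : (q : ℤ) ∣ ((j' : ℤ) - j) := hcop.symm.dvd_of_dvd_mul_right h3
    have h5 : ((j' : ℤ) - j) = 0 := by
      apply Int.eq_zero_of_abs_lt_dvd h4
      rw [abs_lt]
      constructor <;> omega
    omega
  have hbound : ∀ j ∈ range q, G (k0 + j) ≤ ww q N (R j) := by
    intro j hj
    have hj1 := mem_range.1 hj
    unfold ww
    split_ifs with hcond
    · obtain ⟨hr2, hr3⟩ := hcond
      set r := R j with hr
      have hr2' : (2 : ℝ) ≤ r := by exact_mod_cast hr2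
      have hr3' : (r : ℝ) + 3 ≤ q := by exact_mod_cast hr3
      set s : ℝ := min ((r : ℝ) - 1) ((q : ℝ) - r - 2) with hs
      have hs1 : 1 ≤ s := le_min (by linarith) (by linarith)
      have hsr : s ≤ (r : ℝ) - 1 := min_le_left _ _
      have hsq : s ≤ (q : ℝ) - r - 2 := min_le_right _ _
      have hG := hGκ (k0 + j) (s / (2 * q)) (by positivity) (by
        intro n
        -- q * (t k - n)
        set z : ℤ := (c + j * a) / (q : ℤ) with hz
        have hdiv : c + j * a = q * z + r := by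
          have := Int.mul_ediv_add_emod (c + j * a) (q : ℤ)
          rw [← hRz] at this
          rw [hz, hr]; linarith
        have hdiv' : (c : ℝ) + j * a = q * z + r := by exact_mod_cast hdiv
        set θ : ℝ := (q : ℝ) * (t - a / q) * j with hθ
        have hθ1 : |θ| ≤ 1 := by
          rw [hθ, abs_mul, abs_mul, abs_of_pos hq', Nat.abs_cast]
          have hjq : (j : ℝ) ≤ q := by exact_mod_cast hj1.le
          calc (q : ℝ) * |t - a / q| * j ≤ q * (1 / (q : ℝ) ^ 2) * q := by
                apply mul_le_mul _ hjq (Nat.cast_nonneg _) (by positivity)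
                exact mul_le_mul_of_nonneg_left ht hq'.le
            _ = 1 := by field_simp
        have hθ2 := abs_le.1 hθ1
        have hexp : (q : ℝ) * (t * ((k0 + j : ℕ) : ℝ) - n) = q * (z - n) + r + ρ + θ := by
          have e1 : (q : ℝ) * (t * ((k0 + j : ℕ) : ℝ) - n)
              = q * (t * k0) + (a * j + θ) - q * n := by
            rw [hθ]; push_cast; field_simp; ring
          rw [e1, show (q : ℝ) * (t * k0) = c + ρ by rw [hρ]; ring]
          linarith
        have habs : s ≤ |(q : ℝ) * (t * ((k0 + j : ℕ) : ℝ) - n)| := by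
          rw [hexp]
          rcases le_or_gt n z with hzn | hzn
          · have : (n : ℝ) ≤ z := by exact_mod_cast hzn
            have h1 : 0 ≤ (q : ℝ) * (z - n) := by
              apply mul_nonneg hq'.le; linarith
            refine le_trans ?_ (le_abs_self _)
            linarith [hθ2.1]
          · have h0 : (z : ℝ) + 1 ≤ n := by exact_mod_cast hzn
            have h1 : (q : ℝ) * (z - n) ≤ -q := by nlinarith
            refine le_trans ?_ (neg_le_abs _)
            linarith [hθ2.2]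
        rw [abs_mul, abs_of_pos hq'] at habs
        have h2 : s / (2 * q) < s / q := by
          apply div_lt_div_of_pos_left (by linarith) hq' (by linarith)
        have h3 : s / q ≤ |t * ((k0 + j : ℕ) : ℝ) - n| := by
          rw [div_le_iff₀ hq']; linarith
        exact lt_of_lt_of_le h2 h3)
      have e2 : 1 / (2 * (s / (2 * q))) = q / s := by
        have : s ≠ 0 := by linarith
        field_simp
      rw [e2] at hG
      refine hG.trans ?_
      have e3 : hh r = 1 / ((r : ℝ) - 1) := by unfold hh; rw [if_pos hr2]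
      have e4 : hh (q - 1 - r) = 1 / ((q : ℝ) - r - 2) := by
        unfold hh
        rw [if_pos (by omega)]
        congr 1
        rw [Nat.cast_sub (by omega), Nat.cast_sub (by omega)]
        push_cast; ring
      rw [e3, e4]
      have hp1 : 0 < (r : ℝ) - 1 := by linarith
      have hp2 : 0 < (q : ℝ) - r - 2 := by linarith
      rcases min_choice ((r : ℝ) - 1) ((q : ℝ) - r - 2) with h | h
      · rw [hs, h]
        have : 0 ≤ (q : ℝ) * (1 / ((q : ℝ) - r - 2)) := by positivity
        rw [div_eq_mul_one_div]; linarith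
      · rw [hs, h]
        have : 0 ≤ (q : ℝ) * (1 / ((r : ℝ) - 1)) := by positivity
        rw [div_eq_mul_one_div]; linarith
    · exact hGN _
  calc ∑ j ∈ range q, G (k0 + j) ≤ ∑ j ∈ range q, ww q N (R j) := sum_le_sum hbound
    _ = ∑ r ∈ (range q).image R, ww q N r := (sum_image hinj).symm
    _ ≤ ∑ r ∈ range q, ww q N r := by
        apply sum_le_sum_of_subset_of_nonneg
        · intro r hr
          obtain ⟨j, _, rfl⟩ := mem_image.1 hr
          exact mem_range.2 (hRlt j)
        · intro r _ _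
          exact ww_nonneg q N hN r
    _ ≤ _ := sum_ww q hq N hN

lemma sum_even_le (G : ℕ → ℝ) (hG : ∀ k, 0 ≤ G k) (N : ℕ) :
    ∑ h ∈ range N, G (2 * h) ≤ ∑ k ∈ range (2 * N), G k := by
  induction N with
  | zero => simp
  | succ n ih =>
    rw [sum_range_succ, show 2 * (n + 1) = 2 * n + 1 + 1 by ring, sum_range_succ, sum_range_succ]
    have := hG (2 * n + 1)
    linarith

lemma sum_blocks_le (G : ℕ → ℝ) (hG : ∀ k, 0 ≤ G k) (q : ℕ) (hq : 0 < q) (B : ℝ)
    (hB : ∀ k0, ∑ j ∈ range q, G (k0 + j) ≤ B) (M : ℕ) :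
    ∑ k ∈ range (q * M), G k ≤ M * B := by
  induction M with
  | zero => simp
  | succ n ih =>
    rw [Nat.mul_succ, sum_range_add]
    push_cast
    have := hB (q * n)
    linarith

/-- The classical bound for the quadratic Weyl sum. -/
theorem weyl_quad (t : ℝ) (a : ℤ) (q : ℕ) (hq : 0 < q) (hcop : IsCoprime a (q : ℤ))
    (ht : |t - a / q| ≤ 1 / (q : ℝ) ^ 2) (N : ℕ) :
    ‖∑ n ∈ range N, e (t * ((n : ℝ) + 1) ^ 2)‖ ^ 2
      ≤ 2 * ((2 * N / q + 1) * (4 * N + 2 * (q * (1 + Real.log q)))) := by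
  have hq' : (0 : ℝ) < q := by exact_mod_cast hq
  refine (diff_ineq (fun n => e (t * ((n : ℝ) + 1) ^ 2)) N).trans ?_
  apply mul_le_mul_of_nonneg_left _ (by norm_num)
  set G : ℕ → ℝ := fun k => (range (N + 1)).sup' ⟨0, by simp⟩
    (fun m => ‖∑ x ∈ range m, e ((t * k) * x)‖) with hGdef
  have hle : ∀ (k m : ℕ), m ≤ N → ‖∑ x ∈ range m, e ((t * k) * x)‖ ≤ G k := by
    intro k m hm
    rw [hGdef]
    exact le_sup' (fun m => ‖∑ x ∈ range m, e ((t * k) * x)‖) (mem_range.2 (by omega))
  have hG0 : ∀ k, 0 ≤ G k := fun k => le_trans (norm_nonneg _) (hle k 0 (by omega))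
  have hGN : ∀ k, G k ≤ N := by
    intro k
    rw [hGdef]
    apply sup'_le
    intro m hm
    refine (norm_sum_le _ _).trans ?_
    simp only [norm_e, sum_const, card_range, nsmul_eq_mul, mul_one]
    have := mem_range.1 hm
    exact_mod_cast (by omega : m ≤ N)
  have hGκ : ∀ (k : ℕ) (κ : ℝ), 0 < κ → (∀ n : ℤ, κ < |t * k - n|) → G k ≤ 1 / (2 * κ) := by
    intro k κ hκ h
    rw [hGdef]
    apply sup'_le
    intro m _
    exact geom_bound hκ h m
  have hblock := block_sum t a q hq hcop ht G N (Nat.cast_nonneg _) hGN hGκ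
  have h1 : ∀ h ∈ range N, ‖∑ x ∈ range (N - h), e (t * (((h + x : ℕ) : ℝ) + 1) ^ 2)
      * (starRingEnd ℂ) (e (t * ((x : ℝ) + 1) ^ 2))‖ ≤ G (2 * h) := by
    intro h _
    have e1 : ∑ x ∈ range (N - h), e (t * (((h + x : ℕ) : ℝ) + 1) ^ 2)
        * (starRingEnd ℂ) (e (t * ((x : ℝ) + 1) ^ 2))
        = e (t * (h ^ 2 + 2 * h)) * ∑ x ∈ range (N - h), e ((t * ((2 * h : ℕ) : ℝ)) * x) := by
      rw [mul_sum]
      apply sum_congr rfl
      intro x _
      rw [← e_neg, ← e_add, ← e_add]
      congr 1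
      push_cast
      ring
    rw [e1, norm_mul, norm_e, one_mul]
    exact hle (2 * h) (N - h) (by omega)
  refine (sum_le_sum h1).trans ?_
  refine (sum_even_le G hG0 N).trans ?_
  set M : ℕ := 2 * N / q + 1 with hM
  have hMle : 2 * N ≤ q * M := by
    rw [hM]
    have := Nat.lt_mul_div_succ (2 * N) hq
    linarith
  have h2 : ∑ k ∈ range (2 * N), G k ≤ ∑ k ∈ range (q * M), G k := by
    apply sum_le_sum_of_subset_of_nonneg
    · exact range_subset_range.2 hMle
    · intro k _ _; exact hG0 k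
  refine h2.trans ?_
  refine (sum_blocks_le G hG0 q hq _ hblock M).trans ?_
  have hlog : 0 ≤ Real.log q := Real.log_natCast_nonneg q
  apply mul_le_mul_of_nonneg_right _ (by positivity)
  rw [hM]
  push_cast
  have : ((2 * N / q : ℕ) : ℝ) ≤ ((2 * N : ℕ) : ℝ) / q := Nat.cast_div_le
  push_cast at this
  linarith

end Pool.Agent.TH851.W
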