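import Mathlib
import Pool.Agent.TH851.Wey
import Pool.Agent.TH851.Low

set_option autoImplicit false

/-!
# The growth exponent of quadratic Weyl sums at well structured points
-/

namespace Pool.Agent.TH851.W

open Finset Filter
open Pool.Agent.H520R3

/-- the quadratic Weyl sum -/
noncomputable def SS (x : ℝ) (N : ℕ) : ℂ := ∑ n ∈ range N, e (x * ((n : ℝ) + 1) ^ 2)

/-- points with well placed ternary approximations -/
def Good (τ x : ℝ) : Prop :=
  ∃ m t : ℕ → ℕ, StrictMono m ∧ (∀ j, 1 ≤ m j) ∧ (∀ j, τ * m j ≤ t j) ∧ (∀ j, (t j : ℝ) ≤ τ * m j + 1) ∧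
    (∀ j, (m (j + 1) : ℝ) ≤ (τ - 1) ^ 2 * m j) ∧
    ∀ j, ∃ A : ℤ, ¬ (3 : ℤ) ∣ A ∧ 1 / (3 : ℝ) ^ (t j) ≤ |x - A / (3 : ℝ) ^ (m j)| ∧
      |x - A / (3 : ℝ) ^ (m j)| ≤ 2 / (3 : ℝ) ^ (t j)

lemma limsup_eq_of (u : ℕ → ℝ) (α : ℝ) (hα : 0 < α) (hu : ∀ n, 0 ≤ u n)
    (hU : ∀ ε : ℝ, 0 < ε → ∀ᶠ N : ℕ in atTop, u N ≤ (N : ℝ) ^ (α + ε))
    (hL : ∀ ε : ℝ, 0 < ε → ∃ᶠ N : ℕ in atTop, (N : ℝ) ^ (α - ε) ≤ u N) :
    limsup (fun N : ℕ => Real.log (u N) / Real.log N) atTop = α := by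
  have hup : ∀ ε : ℝ, 0 < ε → ∀ᶠ N : ℕ in atTop, Real.log (u N) / Real.log N ≤ α + ε := by
    intro ε hε
    filter_upwards [hU ε hε, eventually_ge_atTop 2] with N h1 h2
    have hN : (2 : ℝ) ≤ N := by exact_mod_cast h2
    have hlog : 0 < Real.log N := Real.log_pos (by linarith)
    rw [div_le_iff₀ hlog]
    rcases eq_or_lt_of_le (hu N) with h0 | h0
    · rw [← h0, Real.log_zero]; positivity
    · calc Real.log (u N) ≤ Real.log ((N : ℝ) ^ (α + ε)) := Real.log_le_log h0 h1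
        _ = (α + ε) * Real.log N := Real.log_rpow (by linarith) _
  have hlow : ∀ ε : ℝ, 0 < ε → ∃ᶠ N : ℕ in atTop, α - ε ≤ Real.log (u N) / Real.log N := by
    intro ε hε
    refine ((hL ε hε).and_eventually (eventually_ge_atTop 2)).mono ?_
    rintro N ⟨h1, h2⟩
    have hN : (2 : ℝ) ≤ N := by exact_mod_cast h2
    have hlog : 0 < Real.log N := Real.log_pos (by linarith)
    rw [le_div_iff₀ hlog]
    calc (α - ε) * Real.log N = Real.log ((N : ℝ) ^ (α - ε)) := (Real.log_rpow (by linarith) _).symm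
      _ ≤ Real.log (u N) := Real.log_le_log (Real.rpow_pos_of_pos (by linarith) _) h1
  have hbdd : IsBoundedUnder (· ≤ ·) atTop (fun N : ℕ => Real.log (u N) / Real.log N) :=
    ⟨α + 1, hup 1 one_pos⟩
  have hcob : IsCoboundedUnder (· ≤ ·) atTop (fun N : ℕ => Real.log (u N) / Real.log N) :=
    IsCoboundedUnder.of_frequently_ge (hlow 1 one_pos)
  apply le_antisymm
  · apply le_of_forall_pos_le_add
    intro ε hε
    exact limsup_le_of_le hcob (hup ε hε)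
  · apply le_of_forall_pos_le_add
    intro ε hε
    have := le_limsup_of_frequently_le (hlow ε hε) hbdd
    linarith

/-- consequence of the Weyl bound in a balanced range -/
lemma weyl_balanced (τ : ℝ) (hτ : 2 < τ) (c : ℝ) (hc : 1 ≤ c) (x : ℝ) (a : ℤ) (q : ℕ) (hq : 0 < q)
    (hcop : IsCoprime a (q : ℤ)) (ht : |x - a / q| ≤ 1 / (q : ℝ) ^ 2) (N : ℕ) (hN : 1 ≤ N)
    (h1 : (N : ℝ) ^ 2 ≤ c * (q : ℝ) ^ τ) (h2 : (q : ℝ) ^ (τ / (τ - 1)) ≤ c * (N : ℝ) ^ 2) :
    ‖SS x N‖ ^ 2 ≤ (36 * c * (3 + Real.log c)) * ((1 + Real.log N) * (N : ℝ) ^ (2 * (1 - 1 / τ))) := by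
  have hN' : (1 : ℝ) ≤ N := by exact_mod_cast hN
  have hN0 : (0 : ℝ) < N := by linarith
  have hq' : (1 : ℝ) ≤ q := by exact_mod_cast hq
  have hq0 : (0 : ℝ) < q := by linarith
  have hτ0 : 0 < τ := by linarith
  have hτ1 : 0 < τ - 1 := by linarith
  have hc0 : 0 < c := by linarith
  set P : ℝ := (N : ℝ) ^ (2 * (1 - 1 / τ)) with hP
  have hP0 : 0 < P := Real.rpow_pos_of_pos hN0 _
  have hlogc : 0 ≤ Real.log c := Real.log_nonneg hc
  have hlogN : 0 ≤ Real.log N := Real.log_nonneg hN'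
  have hlogq : 0 ≤ Real.log q := Real.log_nonneg hq'
  -- N^2 / q ≤ c P
  have hA : (N : ℝ) ^ 2 / q ≤ c * P := by
    have e1 : ((N : ℝ) ^ 2) ^ (1 / τ) ≤ (c * (q : ℝ) ^ τ) ^ (1 / τ) :=
      Real.rpow_le_rpow (by positivity) h1 (by positivity)
    have e2 : (c * (q : ℝ) ^ τ) ^ (1 / τ) = c ^ (1 / τ) * q := by
      rw [Real.mul_rpow hc0.le (by positivity), ← Real.rpow_mul hq0.le]
      rw [mul_one_div_cancel hτ0.ne', Real.rpow_one]
    have e3 : c ^ (1 / τ) ≤ c := by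
      calc c ^ (1 / τ) ≤ c ^ (1 : ℝ) := by
            apply Real.rpow_le_rpow_of_exponent_le hc
            rw [div_le_iff₀ hτ0]; linarith
        _ = c := Real.rpow_one c
    have e4 : ((N : ℝ) ^ 2) ^ (1 / τ) ≤ c * q := by
      rw [e2] at e1
      exact e1.trans (mul_le_mul_of_nonneg_right e3 hq0.le)
    have e5 : (N : ℝ) ^ 2 = P * ((N : ℝ) ^ 2) ^ (1 / τ) := by
      rw [hP, ← Real.rpow_natCast, ← Real.rpow_mul hN0.le, ← Real.rpow_add hN0]
      congr 1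
      push_cast
      ring
    rw [div_le_iff₀ hq0]
    calc (N : ℝ) ^ 2 = P * ((N : ℝ) ^ 2) ^ (1 / τ) := e5
      _ ≤ P * (c * q) := mul_le_mul_of_nonneg_left e4 hP0.le
      _ = c * P * q := by ring
  have hB : (N : ℝ) ≤ c * P := by
    have : (N : ℝ) ≤ P := by
      calc (N : ℝ) = (N : ℝ) ^ (1 : ℝ) := (Real.rpow_one _).symm
        _ ≤ P := by
          apply Real.rpow_le_rpow_of_exponent_le hN'
          have : 1 / τ ≤ 1 / 2 := one_div_le_one_div_of_le (by norm_num) hτ.le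
          linarith
    nlinarith
  have hexp : ((τ - 1) / τ) = 1 - 1 / τ := by field_simp
  have hC : (q : ℝ) ≤ c * P := by
    have e1 : ((q : ℝ) ^ (τ / (τ - 1))) ^ ((τ - 1) / τ) ≤ (c * (N : ℝ) ^ 2) ^ ((τ - 1) / τ) :=
      Real.rpow_le_rpow (by positivity) h2 (by positivity)
    have e2 : ((q : ℝ) ^ (τ / (τ - 1))) ^ ((τ - 1) / τ) = q := by
      rw [← Real.rpow_mul hq0.le]
      have : τ / (τ - 1) * ((τ - 1) / τ) = 1 := by field_simp
      rw [this, Real.rpow_one]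
    have e3 : (c * (N : ℝ) ^ 2) ^ ((τ - 1) / τ) = c ^ ((τ - 1) / τ) * P := by
      rw [Real.mul_rpow hc0.le (by positivity)]
      congr 1
      rw [hP, ← Real.rpow_natCast, ← Real.rpow_mul hN0.le, hexp]
      norm_num
    have e4 : c ^ ((τ - 1) / τ) ≤ c := by
      calc c ^ ((τ - 1) / τ) ≤ c ^ (1 : ℝ) := by
            apply Real.rpow_le_rpow_of_exponent_le hc
            rw [div_le_iff₀ hτ0]; linarith
        _ = c := Real.rpow_one c
    rw [e2, e3] at e1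
    exact e1.trans (mul_le_mul_of_nonneg_right e4 hP0.le)
  have hD : 1 + Real.log q ≤ (3 + Real.log c) * (1 + Real.log N) := by
    have e1 : Real.log q ≤ Real.log (c * (N : ℝ) ^ 2) := by
      apply Real.log_le_log hq0
      refine le_trans ?_ h2
      calc (q : ℝ) = (q : ℝ) ^ (1 : ℝ) := (Real.rpow_one _).symm
        _ ≤ _ := by
          apply Real.rpow_le_rpow_of_exponent_le hq'
          rw [le_div_iff₀ hτ1]; linarith
    rw [Real.log_mul hc0.ne' (by positivity), Real.log_pow] at e1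
    push_cast at e1
    nlinarith
  have hW := weyl_quad x a q hq hcop ht N
  unfold SS
  refine hW.trans ?_
  have hfin : 2 * ((2 * (N : ℝ) / q + 1) * (4 * N + 2 * (q * (1 + Real.log q))))
      ≤ 2 * ((1 + Real.log q) * (8 * ((N : ℝ) ^ 2 / q) + 8 * N + 2 * q)) := by
    have e1 : 2 * (N : ℝ) / q * (4 * N) = 8 * ((N : ℝ) ^ 2 / q) := by ring
    have e2 : 2 * (N : ℝ) / q * (2 * (q * (1 + Real.log q))) = 4 * N * (1 + Real.log q) := by
      field_simp; ring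
    have e3 : (2 * (N : ℝ) / q + 1) * (4 * N + 2 * (q * (1 + Real.log q)))
        = 8 * ((N : ℝ) ^ 2 / q) + 4 * N * (1 + Real.log q) + 4 * N + 2 * q * (1 + Real.log q) := by
      rw [add_mul, mul_add, e1, e2]; ring
    rw [e3]
    have : 0 ≤ (N : ℝ) ^ 2 / q := by positivity
    nlinarith
  refine hfin.trans ?_
  have h8 : 8 * ((N : ℝ) ^ 2 / q) + 8 * N + 2 * q ≤ 18 * (c * P) := by linarith
  calc 2 * ((1 + Real.log q) * (8 * ((N : ℝ) ^ 2 / q) + 8 * N + 2 * q))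
      ≤ 2 * (((3 + Real.log c) * (1 + Real.log N)) * (18 * (c * P))) := by
        apply mul_le_mul_of_nonneg_left _ (by norm_num)
        apply mul_le_mul hD h8 (by positivity) (by positivity)
    _ = _ := by ring

end Pool.Agent.TH851.W
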