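import Mathlib
import Pool.Agent.TH851.Sig

set_option autoImplicit false

/-!
# Upper and lower bounds for good points
-/

namespace Pool.Agent.TH851.W

open Finset Filter
open Pool.Agent.H520R3

lemma coprime_three_pow (A : ℤ) (hA : ¬ (3 : ℤ) ∣ A) (m : ℕ) : IsCoprime A ((3 ^ m : ℕ) : ℤ) := by
  push_cast
  apply IsCoprime.pow_right
  exact ((Int.prime_three.coprime_iff_not_dvd).2 hA).symm

lemma pow3_rpow (k : ℕ) (τ : ℝ) : ((3 : ℝ) ^ k) ^ τ = (3 : ℝ) ^ (τ * k) := by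
  rw [← Real.rpow_natCast, ← Real.rpow_mul (by norm_num), mul_comm]

/-- the second good denominator, from Dirichlet's theorem -/
lemma second_denominator (x : ℝ) (m t : ℕ) (hmt : 2 * m + 1 ≤ t) (A : ℤ) (hA : ¬ (3 : ℤ) ∣ A)
    (h1 : 1 / (3 : ℝ) ^ t ≤ |x - A / (3 : ℝ) ^ m|) (h2 : |x - A / (3 : ℝ) ^ m| ≤ 2 / (3 : ℝ) ^ t) :
    ∃ (a : ℤ) (q : ℕ), 0 < q ∧ IsCoprime a (q : ℤ) ∧ |x - a / q| ≤ 1 / (q : ℝ) ^ 2 ∧
      (3 : ℝ) ^ (t - m) / 4 ≤ q ∧ (q : ℝ) ≤ (3 : ℝ) ^ (t - m) := by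
  have hn : 0 < 3 ^ (t - m) := by positivity
  obtain ⟨r, hr1, hr2⟩ := Real.exists_rat_abs_sub_le_and_den_le x hn
  have hd0 : 0 < r.den := r.den_pos
  have hd : (0 : ℝ) < r.den := by exact_mod_cast hd0
  have hrcast : (r : ℝ) = (r.num : ℝ) / (r.den : ℝ) := by
    rw [Rat.cast_def]
  have hden_le : (r.den : ℝ) ≤ (3 : ℝ) ^ (t - m) := by exact_mod_cast hr2
  have hcop : IsCoprime r.num (r.den : ℤ) := by
    rw [Int.isCoprime_iff_gcd_eq_one]
    exact r.reduced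
  have h3m : (0 : ℝ) < (3 : ℝ) ^ m := by positivity
  have h3t : (0 : ℝ) < (3 : ℝ) ^ t := by positivity
  have htm : (3 : ℝ) ^ t = (3 : ℝ) ^ (t - m) * (3 : ℝ) ^ m := by
    rw [← pow_add]; congr 1; omega
  refine ⟨r.num, r.den, hd0, hcop, ?_, ?_, hden_le⟩
  · rw [← hrcast]
    refine hr1.trans ?_
    apply one_div_le_one_div_of_le (by positivity)
    push_cast
    nlinarith
  · -- lower bound for the denominator
    have hne : (r.num : ℝ) * (3 : ℝ) ^ m ≠ A * r.den := by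
      intro h
      have hz : r.num * 3 ^ m = A * r.den := by exact_mod_cast h
      have hdvd : ((3 ^ m : ℕ) : ℤ) ∣ A * r.den := ⟨r.num, by rw [← hz]; push_cast; ring⟩
      have hdvd2 : ((3 ^ m : ℕ) : ℤ) ∣ (r.den : ℤ) :=
        (coprime_three_pow A hA m).symm.dvd_of_dvd_mul_left hdvd
      have hge : 3 ^ m ≤ r.den := Nat.le_of_dvd hd0 (by exact_mod_cast hdvd2)
      have hge' : (3 : ℝ) ^ m ≤ r.den := by exact_mod_cast hge
      have heq : (A : ℝ) / (3 : ℝ) ^ m = r := by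
        rw [hrcast, div_eq_div_iff h3m.ne' hd.ne']; linarith
      rw [heq] at h1
      have h4 : 1 / (3 : ℝ) ^ t ≤ 1 / ((((3 ^ (t - m) : ℕ) : ℝ) + 1) * r.den) := h1.trans hr1
      have h5 : (((3 ^ (t - m) : ℕ) : ℝ) + 1) * r.den ≤ (3 : ℝ) ^ t :=
        (one_div_le_one_div h3t (by positivity)).1 h4
      push_cast at h5
      rw [htm] at h5
      have : (0 : ℝ) < (3 : ℝ) ^ (t - m) := by positivity
      nlinarith
    have hsep : 1 / ((r.den : ℝ) * (3 : ℝ) ^ m) ≤ |(r : ℝ) - A / (3 : ℝ) ^ m| := by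
      rw [hrcast, div_sub_div _ _ hd.ne' h3m.ne', abs_div, abs_of_pos (mul_pos hd h3m)]
      apply div_le_div_of_nonneg_right _ (by positivity)
      have hz : r.num * 3 ^ m - r.den * A ≠ 0 := by
        intro h0
        apply hne
        have : r.num * 3 ^ m = A * r.den := by linarith
        exact_mod_cast this
      have := Int.one_le_abs hz
      have h6 : (1 : ℝ) ≤ |((r.num * 3 ^ m - r.den * A : ℤ) : ℝ)| := by
        rw [← Int.cast_abs]; exact_mod_cast this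
      push_cast at h6
      exact h6
    have htri : |(r : ℝ) - A / (3 : ℝ) ^ m| ≤ |x - r| + |x - A / (3 : ℝ) ^ m| := by
      have : (r : ℝ) - A / (3 : ℝ) ^ m = -(x - r) + (x - A / (3 : ℝ) ^ m) := by ring
      rw [this]
      refine (abs_add_le _ _).trans ?_
      rw [abs_neg]
    have h7 : 1 / ((r.den : ℝ) * (3 : ℝ) ^ m) ≤ 1 / ((((3 ^ (t - m) : ℕ) : ℝ) + 1) * r.den)
        + 2 / (3 : ℝ) ^ t := by linarith
    push_cast at h7
    -- multiply by den * 3^m
    have h8 : 1 ≤ (3 : ℝ) ^ m / ((3 : ℝ) ^ (t - m) + 1) + 2 * (r.den : ℝ) / (3 : ℝ) ^ (t - m) := by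
      have := mul_le_mul_of_nonneg_right h7 (by positivity : (0 : ℝ) ≤ (r.den : ℝ) * (3 : ℝ) ^ m)
      rw [one_div_mul_cancel (by positivity), add_mul] at this
      rw [htm] at this
      have e1 : 1 / (((3 : ℝ) ^ (t - m) + 1) * (r.den : ℝ)) * ((r.den : ℝ) * (3 : ℝ) ^ m)
          = (3 : ℝ) ^ m / ((3 : ℝ) ^ (t - m) + 1) := by field_simp
      have e2 : 2 / ((3 : ℝ) ^ (t - m) * (3 : ℝ) ^ m) * ((r.den : ℝ) * (3 : ℝ) ^ m)
          = 2 * (r.den : ℝ) / (3 : ℝ) ^ (t - m) := by field_simp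
      rw [e1, e2] at this
      exact this
    have h9 : (3 : ℝ) ^ m / ((3 : ℝ) ^ (t - m) + 1) ≤ 1 / 2 := by
      rw [div_le_div_iff₀ (by positivity) (by norm_num)]
      have : (3 : ℝ) ^ (m + 1) ≤ (3 : ℝ) ^ (t - m) := pow_le_pow_right₀ (by norm_num) (by omega)
      rw [pow_succ] at this
      nlinarith
    have h10 : 1 / 2 ≤ 2 * (r.den : ℝ) / (3 : ℝ) ^ (t - m) := by linarith
    rw [le_div_iff₀ (by positivity)] at h10
    linarith

/-- uniform upper bound -/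
theorem upper (τ x : ℝ) (hτ : 3 < τ) (hx : Good τ x) : ∃ C : ℝ, 0 < C ∧ ∃ N0 : ℕ, ∀ N : ℕ, N0 ≤ N →
    ‖SS x N‖ ^ 2 ≤ C * ((1 + Real.log N) * (N : ℝ) ^ (2 * (1 - 1 / τ))) := by
  obtain ⟨m, t, hm, hm1, ht1, ht2, hgap, happ⟩ := hx
  have hτ1 : 0 < τ - 1 := by linarith
  have hτ0 : 0 < τ := by linarith
  set c : ℝ := (4 : ℝ) ^ τ + 9 with hc
  have hc4 : 0 < (4 : ℝ) ^ τ := by positivity
  have hc1 : 1 ≤ c := by linarith
  refine ⟨36 * c * (3 + Real.log c), by
    have := Real.log_nonneg hc1; positivity, ?_⟩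
  -- choose N0
  obtain ⟨N0, hN0⟩ := exists_nat_ge ((3 : ℝ) ^ (τ * m 0))
  refine ⟨max N0 1, fun N hN => ?_⟩
  have hN1 : 1 ≤ N := le_trans (le_max_right _ _) hN
  have hN1' : (1 : ℝ) ≤ N := by exact_mod_cast hN1
  have hNN0 : (N0 : ℝ) ≤ N := by exact_mod_cast le_trans (le_max_left _ _) hN
  have hstart : (3 : ℝ) ^ (τ * m 0) ≤ (N : ℝ) ^ 2 := by nlinarith
  -- least j' with N^2 < 3^(τ m j')
  have hex : ∃ j, (N : ℝ) ^ 2 < (3 : ℝ) ^ (τ * m j) := by
    obtain ⟨j, hj⟩ := exists_nat_gt ((N : ℝ) ^ 2)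
    refine ⟨j, hj.trans_le ?_⟩
    have h1 : (j : ℝ) ≤ m j := by exact_mod_cast hm.le_apply
    have h2 : (j : ℝ) ≤ (3 : ℝ) ^ (j : ℝ) := by
      rw [Real.rpow_natCast]
      exact_mod_cast (Nat.lt_pow_self (by norm_num : 1 < 3)).le
    refine h2.trans ?_
    apply Real.rpow_le_rpow_of_exponent_le (by norm_num)
    nlinarith
  classical
  set J := Nat.find hex with hJ
  have hJ1 : (N : ℝ) ^ 2 < (3 : ℝ) ^ (τ * m J) := Nat.find_spec hex
  have hJ0 : J ≠ 0 := by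
    intro h0
    rw [h0] at hJ1
    linarith
  obtain ⟨j, hj⟩ := Nat.exists_eq_succ_of_ne_zero hJ0
  have hJ2 : (3 : ℝ) ^ (τ * m j) ≤ (N : ℝ) ^ 2 := by
    have := Nat.find_min hex (show j < Nat.find hex by rw [← hJ, hj]; exact Nat.lt_succ_self j)
    push Not at this
    exact this
  rw [hj] at hJ1
  simp only [Nat.succ_eq_add_one] at hJ1
  rcases le_or_gt ((3 : ℝ) ^ (τ / (τ - 1) * m (j + 1))) ((N : ℝ) ^ 2) with hcase | hcase
  · -- use 3^{m (j+1)}
    obtain ⟨A, hA, hb1, hb2⟩ := happ (j + 1)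
    have hmpos : (1 : ℝ) ≤ m (j + 1) := by exact_mod_cast hm1 (j + 1)
    have ht3 : 2 * m (j + 1) + 1 ≤ t (j + 1) := by
      have h1 := ht1 (j + 1)
      have : (2 * m (j + 1) + 1 : ℝ) ≤ t (j + 1) := by nlinarith
      exact_mod_cast this
    apply weyl_balanced τ (by linarith) c hc1 x A (3 ^ m (j + 1)) (by positivity)
      (coprime_three_pow A hA _) _ N hN1
    · push_cast
      rw [pow3_rpow]
      have : 0 < (3 : ℝ) ^ (τ * m (j + 1)) := by positivity
      nlinarith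
    · push_cast
      rw [pow3_rpow]
      nlinarith
    · push_cast
      refine hb2.trans ?_
      rw [← pow_mul, div_le_div_iff₀ (by positivity) (by positivity), one_mul]
      have h1 : (3 : ℝ) ^ (m (j + 1) * 2 + 1) ≤ (3 : ℝ) ^ (t (j + 1)) :=
        pow_le_pow_right₀ (by norm_num) (by omega)
      rw [pow_succ] at h1
      nlinarith [show (0 : ℝ) < (3 : ℝ) ^ (m (j + 1) * 2) by positivity]
  · -- use the second denominator at level j
    obtain ⟨A, hA, hb1, hb2⟩ := happ j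
    have hmpos : (1 : ℝ) ≤ m j := by exact_mod_cast hm1 j
    have ht3 : 2 * m j + 1 ≤ t j := by
      have h1 := ht1 j
      have : (2 * m j + 1 : ℝ) ≤ t j := by nlinarith
      exact_mod_cast this
    obtain ⟨a, q, hq0, hcop, happrox, hqlow, hqup⟩ := second_denominator x (m j) (t j) ht3 A hA hb1 hb2
    have hq0' : (0 : ℝ) < q := by exact_mod_cast hq0
    have htm : ((t j - m j : ℕ) : ℝ) = (t j : ℝ) - m j := by
      rw [Nat.cast_sub (by omega)]
    apply weyl_balanced τ (by linarith) c hc1 x a q hq0 hcop happrox N hN1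
    · -- N^2 ≤ c q^τ
      have h1 : ((3 : ℝ) ^ (t j - m j) / 4) ^ τ ≤ (q : ℝ) ^ τ :=
        Real.rpow_le_rpow (by positivity) hqlow hτ0.le
      rw [Real.div_rpow (by positivity) (by norm_num), ← Real.rpow_natCast, ← Real.rpow_mul (by norm_num),
        htm] at h1
      have h2 : (N : ℝ) ^ 2 ≤ (3 : ℝ) ^ (((t j : ℝ) - m j) * τ) := by
        refine hcase.le.trans ?_
        apply Real.rpow_le_rpow_of_exponent_le (by norm_num)
        have h3 := hgap j
        have h4 : τ / (τ - 1) * m (j + 1) ≤ τ / (τ - 1) * ((τ - 1) ^ 2 * m j) :=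
          mul_le_mul_of_nonneg_left h3 (by positivity)
        have h5 : τ / (τ - 1) * ((τ - 1) ^ 2 * m j) = τ * ((τ - 1) * m j) := by
          field_simp
        have h6 := ht1 j
        nlinarith
      rw [div_le_iff₀ hc4] at h1
      have h3 : 0 < (q : ℝ) ^ τ := by positivity
      nlinarith
    · -- q^{τ/(τ-1)} ≤ c N^2
      have h1 : (q : ℝ) ^ (τ / (τ - 1)) ≤ ((3 : ℝ) ^ (t j - m j)) ^ (τ / (τ - 1)) :=
        Real.rpow_le_rpow hq0'.le hqup (by positivity)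
      rw [← Real.rpow_natCast, ← Real.rpow_mul (by norm_num), htm] at h1
      have h2 : (3 : ℝ) ^ (((t j : ℝ) - m j) * (τ / (τ - 1))) ≤ (3 : ℝ) ^ (τ * m j + 2) := by
        apply Real.rpow_le_rpow_of_exponent_le (by norm_num)
        have h3 := ht2 j
        have h4 : ((t j : ℝ) - m j) * (τ / (τ - 1)) ≤ ((τ - 1) * m j + 1) * (τ / (τ - 1)) := by
          apply mul_le_mul_of_nonneg_right _ (by positivity)
          linarith
        have h5 : ((τ - 1) * m j + 1) * (τ / (τ - 1)) = τ * m j + τ / (τ - 1) := by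
          field_simp
        have h6 : τ / (τ - 1) ≤ 2 := by
          rw [div_le_iff₀ hτ1]; linarith
        linarith
      have h3 : (3 : ℝ) ^ (τ * m j + 2) = (3 : ℝ) ^ (τ * m j) * 9 := by
        rw [Real.rpow_add (by norm_num)]
        norm_num
      have h4 : (0 : ℝ) ≤ (N : ℝ) ^ 2 := by positivity
      nlinarith

lemma upper_eps (τ x : ℝ) (hτ : 3 < τ) (hx : Good τ x) (ε : ℝ) (hε : 0 < ε) :
    ∀ᶠ N : ℕ in atTop, ‖SS x N‖ ≤ (N : ℝ) ^ ((1 - 1 / τ) + ε) := by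
  obtain ⟨C, hC, N0, hb⟩ := upper τ x hτ hx
  have hlo : (fun y : ℝ => C * (1 + Real.log y)) =o[atTop] (fun y : ℝ => y ^ (2 * ε)) := by
    apply Asymptotics.IsLittleO.const_mul_left
    apply Asymptotics.IsLittleO.add
    · exact Asymptotics.isLittleO_const_left.2 (Or.inr (tendsto_norm_atTop_atTop.comp (tendsto_rpow_atTop (by positivity))))
    · exact isLittleO_log_rpow_atTop (by positivity)
  have hlo2 := (hlo.comp_tendsto tendsto_natCast_atTop_atTop).bound (show (0 : ℝ) < 1 by norm_num)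
  filter_upwards [hlo2, eventually_ge_atTop N0, eventually_ge_atTop 1] with N h1 h2 h3
  have hN1 : (1 : ℝ) ≤ N := by exact_mod_cast h3
  have hN0 : (0 : ℝ) < N := by linarith
  have h4 := hb N h2
  simp only [Function.comp, one_mul] at h1
  rw [Real.norm_of_nonneg (by have := Real.log_nonneg hN1; positivity),
    Real.norm_of_nonneg (by positivity)] at h1
  have h5 : ‖SS x N‖ ^ 2 ≤ ((N : ℝ) ^ ((1 - 1 / τ) + ε)) ^ 2 := by
    refine h4.trans ?_
    have e1 : ((N : ℝ) ^ ((1 - 1 / τ) + ε)) ^ 2 = (N : ℝ) ^ (2 * ε) * (N : ℝ) ^ (2 * (1 - 1 / τ)) := by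
      rw [← Real.rpow_natCast, ← Real.rpow_mul hN0.le, ← Real.rpow_add hN0]
      congr 1
      push_cast; ring
    rw [e1, ← mul_assoc]
    exact mul_le_mul_of_nonneg_right h1 (by positivity)
  exact le_of_sq_le_sq h5 (by positivity)

end Pool.Agent.TH851.W
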