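import Mathlib
import Pool.Agent.TH851.Sig2

set_option autoImplicit false

/-!
# The growth exponent at a good point
-/

namespace Pool.Agent.TH851.W

open Finset Filter
open Pool.Agent.H520R3

lemma lower_eps (τ x : ℝ) (hτ : 3 < τ) (hx : Good τ x) (ε : ℝ) (hε : 0 < ε) :
    ∃ᶠ N : ℕ in atTop, (N : ℝ) ^ ((1 - 1 / τ) - ε) ≤ ‖SS x N‖ := by
  obtain ⟨m, t, hm, hm1, ht1, ht2, hgap, happ⟩ := hx
  have hτ0 : 0 < τ := by linarith
  rw [frequently_atTop]
  intro N0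
  obtain ⟨j1, hj1⟩ := exists_nat_ge (7 / (τ - 3))
  obtain ⟨j2, hj2⟩ := exists_nat_ge (3 / ε)
  set j := max (max j1 j2) (max N0 10) with hj
  have hjm : j ≤ m j := hm.le_apply
  have hmj1 : (j1 : ℝ) ≤ m j := by
    have : j1 ≤ j := by rw [hj]; exact le_trans (le_max_left _ _) (le_max_left _ _)
    exact_mod_cast this.trans hjm
  have hmj2 : (j2 : ℝ) ≤ m j := by
    have : j2 ≤ j := by rw [hj]; exact le_trans (le_max_right _ _) (le_max_left _ _)
    exact_mod_cast this.trans hjm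
  have hmj3 : N0 ≤ m j := by
    have : N0 ≤ j := by rw [hj]; exact le_trans (le_max_left _ _) (le_max_right _ _)
    exact this.trans hjm
  have hmj4 : 10 ≤ m j := by
    have : 10 ≤ j := by rw [hj]; exact le_trans (le_max_right _ _) (le_max_right _ _)
    exact this.trans hjm
  set M := m j with hM
  have hM10 : (10 : ℝ) ≤ M := by exact_mod_cast hmj4
  have hτM : τ * M ≤ t j := ht1 j
  have h3M : 3 * (M : ℝ) + 7 ≤ t j := by
    have h1 : 7 / (τ - 3) ≤ M := hj1.trans hmj1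
    rw [div_le_iff₀ (by linarith)] at h1
    nlinarith
  have h3M' : 3 * M + 7 ≤ t j := by exact_mod_cast h3M
  set s := t j / 2 - 3 with hs
  have hs1 : 2 * s ≤ t j - 6 := by omega
  have hs2 : t j ≤ 2 * s + 7 := by omega
  have hs3 : 3 * M ≤ 2 * s := by omega
  have hsM : M ≤ s := by omega
  have hs2' : (t j : ℝ) ≤ 2 * s + 7 := by exact_mod_cast hs2
  refine ⟨3 ^ s, ?_, ?_⟩
  · calc N0 ≤ M := hmj3
      _ ≤ s := hsM
      _ ≤ 3 ^ s := (Nat.lt_pow_self (by norm_num : 1 < 3)).le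
  · obtain ⟨A, hA, hb1, hb2⟩ := happ j
    have hNs : 3 ^ s = 3 ^ M * 3 ^ (s - M) := by rw [← pow_add]; congr 1; omega
    have hcop2 : IsCoprime (2 * A) ((3 ^ M : ℕ) : ℤ) := by
      apply coprime_three_pow
      intro h
      rcases Int.prime_three.dvd_or_dvd h with h | h
      · norm_num at h
      · exact hA h
    have hsq : Real.sqrt ((3 ^ M : ℕ) : ℝ) = (3 : ℝ) ^ ((M : ℝ) / 2) := by
      push_cast
      rw [Real.sqrt_eq_rpow, ← Real.rpow_natCast, ← Real.rpow_mul (by norm_num)]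
      congr 1; ring
    have hpi : Real.pi < 3.15 := Real.pi_lt_d2
    have hpi0 := Real.pi_pos
    have hlow := lower (3 ^ M) (by positivity) A hcop2 x (3 ^ (s - M)) (by
      rw [← hNs]
      push_cast
      have h1 : (0 : ℝ) < (3 : ℝ) ^ s := by positivity
      have h2 : (1 : ℝ) ≤ (3 : ℝ) ^ s := one_le_pow₀ (by norm_num)
      have h3 : ((3 : ℝ) ^ s) ^ 2 * 729 ≤ (3 : ℝ) ^ (t j) := by
        rw [← pow_mul]
        calc (3 : ℝ) ^ (s * 2) * 729 = (3 : ℝ) ^ (s * 2 + 6) := by rw [pow_add]; norm_num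
          _ ≤ (3 : ℝ) ^ (t j) := pow_le_pow_right₀ (by norm_num) (by omega)
      have h4 : ((3 : ℝ) ^ s) ^ 2 + 2 * (3 : ℝ) ^ s ≤ 3 * ((3 : ℝ) ^ s) ^ 2 := by nlinarith
      have h5 : |x - A / (3 : ℝ) ^ M| * (((3 : ℝ) ^ s) ^ 2 + 2 * (3 : ℝ) ^ s)
          ≤ (2 / (3 : ℝ) ^ (t j)) * (3 * ((3 : ℝ) ^ s) ^ 2) := by
        apply mul_le_mul hb2 h4 (by positivity) (by positivity)
      have h6 : (2 / (3 : ℝ) ^ (t j)) * (3 * ((3 : ℝ) ^ s) ^ 2) ≤ 6 / 729 := by
        rw [div_mul_eq_mul_div, div_le_div_iff₀ (by positivity) (by norm_num)]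
        nlinarith
      have h7 : |x - A / (3 : ℝ) ^ M| * (((3 : ℝ) ^ s) ^ 2 + 2 * (3 : ℝ) ^ s) ≤ 6 / 729 := h5.trans h6
      have h8 : 0 ≤ |x - A / (3 : ℝ) ^ M| * (((3 : ℝ) ^ s) ^ 2 + 2 * (3 : ℝ) ^ s) := by positivity
      calc 2 * Real.pi * |x - A / (3 : ℝ) ^ M| * (((3 : ℝ) ^ s) ^ 2 + 2 * (3 : ℝ) ^ s)
          = 2 * Real.pi * (|x - A / (3 : ℝ) ^ M| * (((3 : ℝ) ^ s) ^ 2 + 2 * (3 : ℝ) ^ s)) := by ring
        _ ≤ 2 * Real.pi * (6 / 729) := mul_le_mul_of_nonneg_left h7 (by positivity)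
        _ ≤ 1 / 4 := by linarith)
      (by
        rw [hsq]
        push_cast
        have e1 : (3 : ℝ) ^ M = (3 : ℝ) ^ (M : ℝ) := (Real.rpow_natCast 3 M).symm
        have e2 : (3 : ℝ) ^ (s - M) = (3 : ℝ) ^ ((s : ℝ) - M) := by
          rw [← Real.rpow_natCast, Nat.cast_sub hsM]
        rw [e1, e2, ← Real.rpow_add (by norm_num)]
        apply Real.rpow_le_rpow_of_exponent_le (by norm_num)
        have : (3 * (M : ℝ)) ≤ 2 * s := by exact_mod_cast hs3
        linarith)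
    have hS : SS x (3 ^ s) = ∑ n ∈ range (3 ^ M * 3 ^ (s - M)), e (x * ((n : ℝ) + 1) ^ 2) := by
      unfold SS; rw [hNs]
    rw [hS]
    refine le_trans ?_ hlow
    rw [hsq]
    push_cast
    have e2 : (3 : ℝ) ^ (s - M) = (3 : ℝ) ^ ((s : ℝ) - M) := by
      rw [← Real.rpow_natCast, Nat.cast_sub hsM]
    rw [e2, ← Real.rpow_add (by norm_num), pow3_rpow]
    have e3 : (3 : ℝ) ^ ((1 - 1 / τ - ε) * (s : ℝ)) ≤ (3 : ℝ) ^ ((s : ℝ) - M + M / 2 - 1) := by
      apply Real.rpow_le_rpow_of_exponent_le (by norm_num)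
      have h1 : 3 / ε ≤ M := hj2.trans hmj2
      rw [div_le_iff₀ hε] at h1
      have hsM' : (M : ℝ) ≤ s := by exact_mod_cast hsM
      have h2 : 3 ≤ s * ε := by nlinarith
      have h3 : (M : ℝ) / 2 ≤ s / τ + 7 / 6 := by
        have : (M : ℝ) ≤ (2 * s + 7) / τ := by
          rw [le_div_iff₀ hτ0]; linarith
        have h4 : (2 * (s : ℝ) + 7) / τ = 2 * (s / τ) + 7 / τ := by ring
        have h5 : 7 / τ ≤ 7 / 3 := by
          apply div_le_div_of_nonneg_left (by norm_num) (by norm_num) hτ.le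
        linarith
      have h6 : (1 - 1 / τ - ε) * (s : ℝ) = s - s / τ - s * ε := by ring
      rw [h6]
      linarith
    refine e3.trans ?_
    rw [Real.rpow_sub (by norm_num : (0 : ℝ) < 3) _ 1, Real.rpow_one]
    have : 0 < (3 : ℝ) ^ ((s : ℝ) - M + M / 2) := by positivity
    linarith

/-- The growth exponent at a good point is `1 - 1/τ`. -/
theorem sigma_good (τ x : ℝ) (hτ : 3 < τ) (hx : Good τ x) :
    limsup (fun N : ℕ => Real.log ‖SS x N‖ / Real.log N) atTop = 1 - 1 / τ := by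
  apply limsup_eq_of (fun N => ‖SS x N‖) (1 - 1 / τ)
  · have : 1 / τ < 1 := by rw [div_lt_one (by linarith)]; linarith
    linarith
  · intro n; exact norm_nonneg _
  · exact fun ε hε => upper_eps τ x hτ hx ε hε
  · exact fun ε hε => lower_eps τ x hτ hx ε hε

end Pool.Agent.TH851.W
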