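import Mathlib
import Pool.Agent.TH851.Sig3

set_option autoImplicit false

/-!
# A Cantor set of good points of positive Hausdorff dimension
-/

namespace Pool.Agent.TH851.W

open Finset Filter

/-- digits -/
noncomputable def dig (m t : ℕ → ℕ) (b : ℕ → Fin 2) (i : ℕ) : Fin 3 :=
  open Classical in
  if ∃ j, i + 1 = m j ∨ i + 1 = t j then 1
  else if h : ∃ j, t j < i + 1 ∧ i + 1 < m (j + 1) then (if b (i - t h.choose) = 1 then 1 else 0)
  else 0

section
variable {m t : ℕ → ℕ} (hm : StrictMono m) (h1 : ∀ j, m j < t j) (h2 : ∀ j, t j < m (j + 1))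
include hm h1 h2

lemma t_lt_m {j j' : ℕ} (h : j < j') : t j < m j' :=
  (h2 j).trans_le (hm.monotone h)

lemma dig_m (b : ℕ → Fin 2) (j i : ℕ) (hi : i + 1 = m j) : dig m t b i = 1 := by
  unfold dig
  rw [if_pos ⟨j, Or.inl hi⟩]

lemma dig_t (b : ℕ → Fin 2) (j i : ℕ) (hi : i + 1 = t j) : dig m t b i = 1 := by
  unfold dig
  rw [if_pos ⟨j, Or.inr hi⟩]

lemma dig_gap (b : ℕ → Fin 2) (j i : ℕ) (hi1 : m j < i + 1) (hi2 : i + 1 < t j) :
    dig m t b i = 0 := by
  unfold dig
  rw [if_neg, dif_neg]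
  · rintro ⟨j', ha, hb⟩
    rcases lt_trichotomy j j' with h | h | h
    · have := t_lt_m hm h1 h2 h
      have := h1 j'
      omega
    · subst h; omega
    · have : m (j' + 1) ≤ m j := hm.monotone h
      omega
  · rintro ⟨j', ha | ha⟩
    · rcases lt_trichotomy j j' with h | h | h
      · have := t_lt_m hm h1 h2 h
        omega
      · subst h; omega
      · have : m j' < m j := hm h
        omega
    · rcases lt_trichotomy j j' with h | h | h
      · have := t_lt_m hm h1 h2 h
        have := h1 j'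
        omega
      · subst h; omega
      · have := t_lt_m hm h1 h2 h
        omega

lemma dig_free (b : ℕ → Fin 2) (j i0 : ℕ) (hi : t j + i0 + 1 < m (j + 1)) :
    dig m t b (t j + i0) = if b i0 = 1 then 1 else 0 := by
  unfold dig
  have hex : ∃ j', t j' < t j + i0 + 1 ∧ t j + i0 + 1 < m (j' + 1) := ⟨j, by omega, hi⟩
  rw [if_neg, dif_pos hex]
  · have hj : hex.choose = j := by
      obtain ⟨ha, hb⟩ := hex.choose_spec
      rcases lt_trichotomy j hex.choose with h | h | h
      · have : m (j + 1) ≤ m hex.choose := hm.monotone h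
        have := h1 hex.choose
        omega
      · exact h.symm
      · have : m (hex.choose + 1) ≤ m j := hm.monotone h
        have := h1 j
        omega
    rw [hj]
    simp
  · rintro ⟨j', ha | ha⟩
    · rcases lt_trichotomy j j' with h | h | h
      · have : m (j + 1) ≤ m j' := hm.monotone h
        omega
      · subst h
        have := h1 j
        omega
      · have : m j' < m j := hm h
        have := h1 j
        omega
    · rcases lt_trichotomy j j' with h | h | h
      · have : m (j + 1) ≤ m j' := hm.monotone h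
        have := h1 j'
        omega
      · subst h; omega
      · have := t_lt_m hm h1 h2 h
        have := h1 j
        omega

end

lemma dig_le_one (m t : ℕ → ℕ) (b : ℕ → Fin 2) (i : ℕ) : dig m t b i = 0 ∨ dig m t b i = 1 := by
  unfold dig
  split_ifs <;> simp

/-- digit sums with digits `0, 1` in base three are at most `1/2` -/
lemma ofDigits_le_half (a : ℕ → Fin 3) (ha : ∀ i, a i = 0 ∨ a i = 1) : Real.ofDigits a ≤ 1 / 2 := by
  set a' : ℕ → Fin 3 := fun i => if a i = 0 then 0 else 2 with ha'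
  have h1 := Real.ofDigits_le_one a'
  have h2 : Real.ofDigits a' = 2 * Real.ofDigits a := by
    unfold Real.ofDigits
    rw [← tsum_mul_left]
    congr 1
    ext i
    unfold Real.ofDigitsTerm
    rcases ha i with h | h
    · simp [ha', h]
    · simp [ha', h]
  linarith

/-- integer formed by the first `n` digits -/
def AA (a : ℕ → Fin 3) : ℕ → ℕ
  | 0 => 0
  | (n + 1) => 3 * AA a n + (a n : ℕ)

lemma sum_eq_AA (a : ℕ → Fin 3) (n : ℕ) :
    ∑ i ∈ range n, Real.ofDigitsTerm a i = (AA a n : ℝ) / 3 ^ n := by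
  induction n with
  | zero => simp [AA]
  | succ n ih =>
    have hA : AA a (n + 1) = 3 * AA a n + (a n : ℕ) := rfl
    rw [sum_range_succ, ih, hA]
    unfold Real.ofDigitsTerm
    push_cast
    field_simp
    ring

lemma AA_gap (a : ℕ → Fin 3) (n k : ℕ) (h : ∀ i, n ≤ i → i < n + k → a i = 0) :
    AA a (n + k) = 3 ^ k * AA a n := by
  induction k with
  | zero => simp
  | succ k ih =>
    have : AA a (n + (k + 1)) = 3 * AA a (n + k) + (a (n + k) : ℕ) := rfl
    rw [this, ih (fun i hi1 hi2 => h i hi1 (by omega)), h (n + k) (by omega) (by omega), pow_succ]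
    simp
    ring

/-- separation of points by a differing digit -/
lemma separation (a a' : ℕ → Fin 3) (ha : ∀ i, a i = 0 ∨ a i = 1) (ha' : ∀ i, a' i = 0 ∨ a' i = 1)
    (n : ℕ) (hn : a n ≠ a' n) : 1 / (2 * (3 : ℝ) ^ (n + 1)) ≤ |Real.ofDigits a - Real.ofDigits a'| := by
  classical
  have hex : ∃ k, a k ≠ a' k := ⟨n, hn⟩
  set k := Nat.find hex with hk
  have hk1 : a k ≠ a' k := Nat.find_spec hex
  have hk2 : ∀ i < k, a i = a' i := fun i hi => by
    have := Nat.find_min hex hi
    push Not at this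
    exact this
  have hkn : k ≤ n := Nat.find_min' hex hn
  have e1 := Real.ofDigits_eq_sum_add_ofDigits a (k + 1)
  have e2 := Real.ofDigits_eq_sum_add_ofDigits a' (k + 1)
  rw [sum_range_succ] at e1 e2
  have e3 : ∑ i ∈ range k, Real.ofDigitsTerm a i = ∑ i ∈ range k, Real.ofDigitsTerm a' i := by
    apply sum_congr rfl
    intro i hi
    unfold Real.ofDigitsTerm
    rw [hk2 i (mem_range.1 hi)]
  have hw1 := ofDigits_le_half (fun i => a (i + (k + 1))) (fun i => ha _)
  have hw2 := ofDigits_le_half (fun i => a' (i + (k + 1))) (fun i => ha' _)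
  have hw3 := Real.ofDigits_nonneg (fun i => a (i + (k + 1)))
  have hw4 := Real.ofDigits_nonneg (fun i => a' (i + (k + 1)))
  set w := Real.ofDigits (fun i => a (i + (k + 1)))
  set w' := Real.ofDigits (fun i => a' (i + (k + 1)))
  have h3 : (0 : ℝ) < (3 : ℝ) ^ (k + 1) := by positivity
  have hdiff : Real.ofDigits a - Real.ofDigits a'
      = ((((a k : ℕ) : ℝ) - ((a' k : ℕ) : ℝ)) + (w - w')) * ((3 : ℝ) ^ (k + 1))⁻¹ := by
    rw [e1, e2, e3]
    unfold Real.ofDigitsTerm
    push_cast
    ring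
  have hkey : 1 / 2 ≤ |(((a k : ℕ) : ℝ) - ((a' k : ℕ) : ℝ)) + (w - w')| := by
    rcases ha k with h | h <;> rcases ha' k with h' | h'
    · exact absurd (h.trans h'.symm) hk1
    · rw [h, h']
      simp only [Fin.val_zero, Fin.val_one, Nat.cast_zero, Nat.cast_one]
      refine le_trans ?_ (neg_le_abs _)
      linarith
    · rw [h, h']
      simp only [Fin.val_zero, Fin.val_one, Nat.cast_zero, Nat.cast_one]
      refine le_trans ?_ (le_abs_self _)
      linarith
    · exact absurd (h.trans h'.symm) hk1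
  rw [hdiff, abs_mul, abs_of_pos (inv_pos.2 h3)]
  have h4 : (3 : ℝ) ^ (k + 1) ≤ (3 : ℝ) ^ (n + 1) := pow_le_pow_right₀ (by norm_num) (by omega)
  calc 1 / (2 * (3 : ℝ) ^ (n + 1)) ≤ 1 / (2 * (3 : ℝ) ^ (k + 1)) := by
        apply one_div_le_one_div_of_le (by positivity); linarith
    _ = 1 / 2 * ((3 : ℝ) ^ (k + 1))⁻¹ := by field_simp
    _ ≤ _ := mul_le_mul_of_nonneg_right hkey (by positivity)

/-- approximation property -/
lemma approx {m t : ℕ → ℕ} (hm : StrictMono m) (h0 : ∀ j, 1 ≤ m j) (h1 : ∀ j, m j < t j)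
    (h2 : ∀ j, t j < m (j + 1)) (b : ℕ → Fin 2) (j : ℕ) :
    ∃ A : ℤ, ¬ (3 : ℤ) ∣ A ∧ 1 / (3 : ℝ) ^ (t j) ≤ |Real.ofDigits (dig m t b) - A / (3 : ℝ) ^ (m j)| ∧
      |Real.ofDigits (dig m t b) - A / (3 : ℝ) ^ (m j)| ≤ 2 / (3 : ℝ) ^ (t j) := by
  set a := dig m t b with ha
  refine ⟨(AA a (m j) : ℤ), ?_, ?_⟩
  · obtain ⟨m', hm'⟩ : ∃ m', m j = m' + 1 := ⟨m j - 1, by have := h0 j; omega⟩
    have : AA a (m j) = 3 * AA a m' + 1 := by
      rw [hm']
      have h3 : a m' = 1 := dig_m hm h1 h2 b j m' hm'.symm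
      have h4 : AA a (m' + 1) = 3 * AA a m' + (a m' : ℕ) := rfl
      rw [h4, h3]
      simp
    rw [this]
    push_cast
    omega
  · obtain ⟨t', ht'⟩ : ∃ t', t j = t' + 1 := ⟨t j - 1, by have := h1 j; omega⟩
    obtain ⟨k, hk⟩ : ∃ k, t' = m j + k := ⟨t' - m j, by have := h1 j; omega⟩
    have hAt : AA a (t j) = 3 * (3 ^ k * AA a (m j)) + 1 := by
      rw [ht']
      have h3 : a t' = 1 := dig_t hm h1 h2 b j t' ht'.symm
      have h4 : AA a t' = 3 ^ k * AA a (m j) := by
        rw [hk]
        apply AA_gap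
        intro i hi1 hi2
        exact dig_gap hm h1 h2 b j i (by omega) (by omega)
      have : AA a (t' + 1) = 3 * AA a t' + (a t' : ℕ) := rfl
      rw [this, h3, h4]
      simp
    have e1 := Real.ofDigits_eq_sum_add_ofDigits a (t j)
    rw [sum_eq_AA, hAt] at e1
    have hw1 := ofDigits_le_half (fun i => a (i + t j)) (fun i => dig_le_one m t b _)
    have hw2 := Real.ofDigits_nonneg (fun i => a (i + t j))
    set w := Real.ofDigits (fun i => a (i + t j))
    have hpow : (3 : ℝ) ^ (t j) = 3 ^ (k + 1) * 3 ^ (m j) := by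
      rw [← pow_add]; congr 1; omega
    have hdiff : Real.ofDigits a - ((AA a (m j) : ℤ) : ℝ) / (3 : ℝ) ^ (m j) = (1 + w) / (3 : ℝ) ^ (t j) := by
      rw [e1]
      push_cast
      rw [hpow]
      field_simp
      ring
    rw [hdiff, abs_of_nonneg (by positivity)]
    constructor
    · apply div_le_div_of_nonneg_right _ (by positivity); linarith
    · apply div_le_div_of_nonneg_right _ (by positivity); linarith

/-- positive dimension -/
theorem dim_pos {m t : ℕ → ℕ} (hm : StrictMono m) (h1 : ∀ j, m j < t j)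
    (h2 : ∀ j, t j < m (j + 1)) (C : ℕ) (hC : 0 < C)
    (hfree : ∀ i0, ∃ j, t j + i0 + 1 < m (j + 1) ∧ t j + i0 + 1 ≤ C * (i0 + 1)) :
    0 < dimH (Set.range (fun b : ℕ → Fin 2 => Real.ofDigits (dig m t b))) := by
  classical
  set X : (ℕ → Fin 2) → ℝ := fun b => Real.ofDigits (dig m t b) with hX
  set G : (ℕ → Fin 2) → ℝ := fun b => Real.ofDigits b with hG
  set r : ℝ := Real.log 2 / (C * Real.log 3) with hr
  have hl2 : 0 < Real.log 2 := Real.log_pos (by norm_num)
  have hl3 : 0 < Real.log 3 := Real.log_pos (by norm_num)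
  have hC' : (0 : ℝ) < C := by exact_mod_cast hC
  have hr0 : 0 < r := by rw [hr]; positivity
  -- key inequality
  have key : ∀ b b' : ℕ → Fin 2, b ≠ b' →
      0 < |X b - X b'| ∧ |G b - G b'| ≤ (2 * (2 : ℝ) ^ r) * |X b - X b'| ^ r := by
    intro b b' hbb
    have hex : ∃ i, b i ≠ b' i := Function.ne_iff.1 hbb
    set i0 := Nat.find hex with hi0
    have hi1 : b i0 ≠ b' i0 := Nat.find_spec hex
    have hi2 : ∀ i < i0, b i = b' i := fun i hi => by
      have := Nat.find_min hex hi
      push Not at this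
      exact this
    obtain ⟨j, hj1, hj2⟩ := hfree i0
    have hne : dig m t b (t j + i0) ≠ dig m t b' (t j + i0) := by
      rw [dig_free hm h1 h2 b j i0 hj1, dig_free hm h1 h2 b' j i0 hj1]
      have hb : b i0 = 0 ∨ b i0 = 1 := by
        rcases h : b i0 with ⟨v, hv⟩
        interval_cases v <;> simp
      have hb' : b' i0 = 0 ∨ b' i0 = 1 := by
        rcases h : b' i0 with ⟨v, hv⟩
        interval_cases v <;> simp
      rcases hb with h | h <;> rcases hb' with h' | h'
      · exact absurd (h.trans h'.symm) hi1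
      · rw [h, h']; simp
      · rw [h, h']; simp
      · exact absurd (h.trans h'.symm) hi1
    have hsep := separation _ _ (dig_le_one m t b) (dig_le_one m t b') (t j + i0) hne
    have hsep2 : 1 / (2 * (3 : ℝ) ^ (C * (i0 + 1))) ≤ |X b - X b'| := by
      refine le_trans ?_ hsep
      apply one_div_le_one_div_of_le (by positivity)
      have : (3 : ℝ) ^ (t j + i0 + 1) ≤ (3 : ℝ) ^ (C * (i0 + 1)) :=
        pow_le_pow_right₀ (by norm_num) hj2
      linarith
    have hpos : 0 < |X b - X b'| := lt_of_lt_of_le (by positivity) hsep2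
    refine ⟨hpos, ?_⟩
    have hGle : |G b - G b'| ≤ (((2 : ℕ) : ℝ) ^ i0)⁻¹ := Real.abs_ofDigits_sub_ofDigits_le hi2
    refine hGle.trans ?_
    have h5 : (1 / (3 : ℝ) ^ (C * (i0 + 1))) ^ r ≤ (2 * |X b - X b'|) ^ r := by
      apply Real.rpow_le_rpow (by positivity) _ hr0.le
      have : 1 / (2 * (3 : ℝ) ^ (C * (i0 + 1))) = (1 / (3 : ℝ) ^ (C * (i0 + 1))) / 2 := by
        field_simp
      linarith
    rw [Real.mul_rpow (by norm_num) hpos.le] at h5
    have h6 : (1 / (3 : ℝ) ^ (C * (i0 + 1))) ^ r = 1 / (2 : ℝ) ^ (i0 + 1) := by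
      rw [Real.div_rpow (by norm_num) (by positivity), Real.one_rpow]
      congr 1
      rw [← Real.rpow_natCast, ← Real.rpow_mul (by norm_num), ← Real.rpow_natCast]
      rw [Real.rpow_def_of_pos (by norm_num), Real.rpow_def_of_pos (by norm_num)]
      congr 1
      rw [hr]
      push_cast
      field_simp
    rw [h6] at h5
    calc (((2 : ℕ) : ℝ) ^ i0)⁻¹ = 2 * (1 / (2 : ℝ) ^ (i0 + 1)) := by
          push_cast
          rw [pow_succ]; field_simp
      _ ≤ 2 * ((2 : ℝ) ^ r * |X b - X b'| ^ r) := by linarith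
      _ = _ := by ring
  have hinj : Function.Injective X := by
    intro b b' hbb
    by_contra hne
    have := (key b b' hne).1
    rw [hbb, sub_self, abs_zero] at this
    exact lt_irrefl _ this
  -- the inverse map
  set g : ℝ → ℝ := fun y => if h : ∃ b, X b = y then G h.choose else 0 with hg
  have hgX : ∀ b, g (X b) = G b := by
    intro b
    have hex : ∃ b', X b' = X b := ⟨b, rfl⟩
    rw [hg]
    simp only
    rw [dif_pos hex]
    congr 1
    exact hinj hex.choose_spec
  set Cc : NNReal := ⟨2 * (2 : ℝ) ^ r, by positivity⟩ with hCc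
  set rr : NNReal := ⟨r, hr0.le⟩ with hrr
  have hHold : HolderOnWith Cc rr g (Set.range X) := by
    rintro _ ⟨b, rfl⟩ _ ⟨b', rfl⟩
    rw [hgX, hgX]
    rcases eq_or_ne b b' with h | h
    · subst h; simp
    · have hk := (key b b' h).2
      rw [edist_dist, edist_dist, Real.dist_eq, Real.dist_eq]
      have hrpow : ENNReal.ofReal |X b - X b'| ^ ((rr : NNReal) : ℝ)
          = ENNReal.ofReal (|X b - X b'| ^ r) :=
        ENNReal.ofReal_rpow_of_nonneg (abs_nonneg (X b - X b')) hr0.le
      have hCC : (Cc : ENNReal) = ENNReal.ofReal (2 * (2 : ℝ) ^ r) := by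
        rw [hCc, ENNReal.ofReal, Real.toNNReal_of_nonneg (by positivity)]
        rfl
      rw [hrpow, hCC, ← ENNReal.ofReal_mul (by positivity)]
      exact ENNReal.ofReal_le_ofReal hk
  have hdim := hHold.dimH_image_le (show 0 < rr from hr0)
  have himg : Set.Icc (0 : ℝ) 1 ⊆ g '' Set.range X := by
    intro y hy
    obtain ⟨b, _, hb⟩ := Real.ofDigits_SurjOn (show 1 < 2 by norm_num) hy
    exact ⟨X b, ⟨b, rfl⟩, by rw [hgX]; exact hb⟩
  have hone : (1 : ENNReal) ≤ dimH (g '' Set.range X) := by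
    refine le_trans ?_ (dimH_mono himg)
    rw [Real.dimH_of_nonempty_interior (by rw [interior_Icc]; exact ⟨1 / 2, by norm_num, by norm_num⟩)]
    simp
  rw [pos_iff_ne_zero]
  intro h0
  rw [h0, ENNReal.zero_div] at hdim
  exact absurd (hone.trans hdim) (by simp)

end Pool.Agent.TH851.W
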