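import Mathlib
import Pool.Agent.TH851.Cant

set_option autoImplicit false

/-!
# The set of good points has positive Hausdorff dimension
-/

namespace Pool.Agent.TH851.W

open Finset Filter

/-- sequences of digit positions -/
lemma exists_seq (τ : ℝ) (hτ : 3 < τ) :
    ∃ m t : ℕ → ℕ, StrictMono m ∧ (∀ j, 1 ≤ m j) ∧ (∀ j, m j < t j) ∧ (∀ j, t j < m (j + 1)) ∧
      (∀ j, τ * m j ≤ t j) ∧ (∀ j, (t j : ℝ) ≤ τ * m j + 1) ∧
      (∀ j, (m (j + 1) : ℝ) ≤ (τ - 1) ^ 2 * m j) ∧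
      ∃ C : ℕ, 0 < C ∧ ∀ i0, ∃ j, t j + i0 + 1 < m (j + 1) ∧ t j + i0 + 1 ≤ C * (i0 + 1) := by
  classical
  set K : ℕ := ⌊τ⌋₊ + 1 with hK
  have hK1 : τ < K := by rw [hK]; push_cast; exact Nat.lt_floor_add_one τ
  have hK2 : (K : ℝ) ≤ τ + 1 := by
    rw [hK]; push_cast
    have := Nat.floor_le (show 0 ≤ τ by linarith)
    linarith
  have hK4 : 3 < (K : ℝ) := hτ.trans hK1
  have hK4' : 3 < K := by exact_mod_cast hK4
  set δ : ℝ := K - τ with hδ
  have hδ0 : 0 < δ := by rw [hδ]; linarith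
  obtain ⟨M, hM⟩ := exists_nat_ge (4 / δ)
  have hM4 : 4 ≤ δ * M := by
    rw [div_le_iff₀ hδ0] at hM; linarith
  have hM1 : 1 ≤ M := by
    rcases Nat.eq_zero_or_pos M with h | h
    · rw [h] at hM4; simp at hM4; linarith
    · exact h
  set m : ℕ → ℕ := fun j => M * K ^ j with hm
  set t : ℕ → ℕ := fun j => ⌈τ * (m j : ℝ)⌉₊ with ht
  have hmM : ∀ j, M ≤ m j := fun j => by
    rw [hm]; exact Nat.le_mul_of_pos_right _ (pow_pos (by omega) _)
  have hm1 : ∀ j, 1 ≤ m j := fun j => hM1.trans (hmM j)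
  have hmR : ∀ j, (1 : ℝ) ≤ (m j : ℝ) := fun j => by exact_mod_cast hm1 j
  have hδm : ∀ j, 4 ≤ δ * (m j : ℝ) := fun j => by
    have : (M : ℝ) ≤ m j := by exact_mod_cast hmM j
    nlinarith
  have hmsucc : ∀ j, m (j + 1) = K * m j := fun j => by rw [hm]; ring
  have hmsuccR : ∀ j, (m (j + 1) : ℝ) = K * (m j : ℝ) := fun j => by
    rw [hmsucc]; push_cast; ring
  have ht1 : ∀ j, τ * (m j : ℝ) ≤ t j := fun j => Nat.le_ceil _
  have ht2 : ∀ j, (t j : ℝ) < τ * m j + 1 := fun j =>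
    Nat.ceil_lt_add_one (by have := hmR j; nlinarith)
  have hmt : ∀ j, m j < t j := fun j => by
    have h1 := ht1 j
    have h2 := hmR j
    have : (m j : ℝ) < t j := by nlinarith
    exact_mod_cast this
  have htm : ∀ j, t j < m (j + 1) := fun j => by
    have h1 := ht2 j
    have h2 := hδm j
    have : (t j : ℝ) < m (j + 1) := by
      rw [hmsuccR]
      have : (K : ℝ) * m j = τ * m j + δ * m j := by rw [hδ]; ring
      linarith
    exact_mod_cast this
  refine ⟨m, t, strictMono_nat_of_lt_succ (fun j => (hmt j).trans (htm j)), hm1, hmt, htm, ht1,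
    fun j => (ht2 j).le, ?_, ?_⟩
  · intro j
    rw [hmsuccR]
    have h2 := hmR j
    apply mul_le_mul_of_nonneg_right _ (by linarith)
    nlinarith
  · set C : ℕ := t 0 + 2 + ⌈2 * τ * K / δ⌉₊ with hC
    refine ⟨C, by rw [hC]; omega, ?_⟩
    intro i0
    have hex : ∃ j, (i0 : ℝ) + 2 ≤ δ * (m j : ℝ) := by
      obtain ⟨j, hj⟩ := exists_nat_ge (((i0 : ℝ) + 2) / δ)
      refine ⟨j, ?_⟩
      rw [div_le_iff₀ hδ0] at hj
      have h1 : j ≤ m j := by
        have h2 : j < K ^ j := Nat.lt_pow_self (by omega)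
        have h3 : K ^ j ≤ m j := by
          rw [hm]; exact Nat.le_mul_of_pos_left _ (by omega)
        omega
      have h2 : (j : ℝ) ≤ m j := by exact_mod_cast h1
      nlinarith
    set j := Nat.find hex with hj
    have hj1 : (i0 : ℝ) + 2 ≤ δ * (m j : ℝ) := Nat.find_spec hex
    refine ⟨j, ?_, ?_⟩
    · have h1 := ht2 j
      have : ((t j : ℝ) + i0 + 1) < m (j + 1) := by
        rw [hmsuccR]
        have : (K : ℝ) * m j = τ * m j + δ * m j := by rw [hδ]; ring
        linarith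
      exact_mod_cast this
    · rcases Nat.eq_zero_or_pos j with h0 | h0
      · rw [h0]
        have : t 0 + i0 + 1 ≤ (t 0 + 1) * (i0 + 1) := by nlinarith
        refine this.trans (Nat.mul_le_mul_right _ ?_)
        rw [hC]; omega
      · obtain ⟨j', hj'⟩ : ∃ j', j = j' + 1 := ⟨j - 1, by omega⟩
        have hlt : ¬ ((i0 : ℝ) + 2 ≤ δ * (m j' : ℝ)) := Nat.find_min hex (by rw [← hj]; omega)
        push Not at hlt
        have h1 := ht2 j
        have h3 : (m j : ℝ) = K * m j' := by rw [hj']; exact hmsuccR j'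
        have h4 : (m j' : ℝ) ≤ ((i0 : ℝ) + 2) / δ := by
          rw [le_div_iff₀ hδ0]; linarith
        have h5 : (t j : ℝ) ≤ τ * (K * (((i0 : ℝ) + 2) / δ)) + 1 := by
          rw [h3] at h1
          have : τ * (K * (m j' : ℝ)) ≤ τ * (K * (((i0 : ℝ) + 2) / δ)) := by
            apply mul_le_mul_of_nonneg_left _ (by linarith)
            apply mul_le_mul_of_nonneg_left h4 (by linarith)
          linarith
        have h6 : τ * (K * (((i0 : ℝ) + 2) / δ)) ≤ 2 * τ * K / δ * ((i0 : ℝ) + 1) := by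
          have : 2 * τ * K / δ * ((i0 : ℝ) + 1) - τ * (K * (((i0 : ℝ) + 2) / δ))
              = τ * K / δ * i0 := by field_simp; ring
          have h7 : 0 ≤ τ * K / δ * i0 := by
            have : 0 ≤ τ := by linarith
            positivity
          linarith
        have h7 : 2 * τ * K / δ ≤ ⌈2 * τ * K / δ⌉₊ := Nat.le_ceil _
        have h8 : (t j : ℝ) + i0 + 1 ≤ (C : ℝ) * ((i0 : ℝ) + 1) := by
          rw [hC]; push_cast
          have h9 : (0 : ℝ) ≤ (i0 : ℝ) := by positivity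
          have h10 : (0 : ℝ) ≤ (t 0 : ℝ) := by positivity
          nlinarith
        exact_mod_cast h8

/-- the set of good points in `[0, 1/2]` has positive dimension -/
theorem good_dim (τ : ℝ) (hτ : 3 < τ) : 0 < dimH {x : ℝ | x ∈ Set.Icc 0 (1 / 2) ∧ Good τ x} := by
  obtain ⟨m, t, hm, h0, h1, h2, h3, h4, h5, C, hC, hfree⟩ := exists_seq τ hτ
  refine lt_of_lt_of_le (dim_pos hm h1 h2 C hC hfree) (dimH_mono ?_)
  rintro _ ⟨b, rfl⟩
  refine ⟨⟨Real.ofDigits_nonneg _, ofDigits_le_half _ (dig_le_one m t b)⟩, ?_⟩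
  exact ⟨m, t, hm, h0, h3, h4, h5, approx hm h0 h1 h2 b⟩

end Pool.Agent.TH851.W
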