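import Mathlib
import Pool.Agent.TH851.Seq

set_option autoImplicit false

/-!
# Extended real form of the growth exponent
-/

namespace Pool.Agent.TH851.W

open Finset Filter

lemma elog_div (u : ℝ) (N : ℕ) (hu : 0 < u) :
    ENNReal.log (ENNReal.ofReal u) / ((Real.log N : ℝ) : EReal)
      = ((Real.log u / Real.log N : ℝ) : EReal) := by
  rw [ENNReal.log_ofReal_of_pos hu, EReal.coe_div]

lemma limsup_ereal_of (u : ℕ → ℝ) (α : ℝ) (hu : ∀ n, 0 ≤ u n)
    (hU : ∀ ε : ℝ, 0 < ε → ∀ᶠ N : ℕ in atTop, u N ≤ (N : ℝ) ^ (α + ε))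
    (hL : ∀ ε : ℝ, 0 < ε → ∃ᶠ N : ℕ in atTop, (N : ℝ) ^ (α - ε) ≤ u N) :
    limsup (fun N : ℕ => ENNReal.log (ENNReal.ofReal (u N)) / ((Real.log N : ℝ) : EReal)) atTop
      = (α : EReal) := by
  have hup : ∀ ε : ℝ, 0 < ε → ∀ᶠ N : ℕ in atTop,
      ENNReal.log (ENNReal.ofReal (u N)) / ((Real.log N : ℝ) : EReal) ≤ ((α + ε : ℝ) : EReal) := by
    intro ε hε
    filter_upwards [hU ε hε, eventually_ge_atTop 2] with N h1 h2
    have hN : (2 : ℝ) ≤ N := by exact_mod_cast h2
    have hlog : 0 < Real.log N := Real.log_pos (by linarith)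
    rcases eq_or_lt_of_le (hu N) with h0 | h0
    · rw [← h0, ENNReal.ofReal_zero, ENNReal.log_zero,
        EReal.bot_div_of_pos_ne_top (by exact_mod_cast hlog) (EReal.coe_ne_top _)]
      exact bot_le
    · rw [elog_div _ _ h0]
      apply EReal.coe_le_coe
      rw [div_le_iff₀ hlog]
      calc Real.log (u N) ≤ Real.log ((N : ℝ) ^ (α + ε)) := Real.log_le_log h0 h1
        _ = (α + ε) * Real.log N := Real.log_rpow (by linarith) _
  have hlow : ∀ ε : ℝ, 0 < ε → ∃ᶠ N : ℕ in atTop,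
      ((α - ε : ℝ) : EReal) ≤ ENNReal.log (ENNReal.ofReal (u N)) / ((Real.log N : ℝ) : EReal) := by
    intro ε hε
    refine ((hL ε hε).and_eventually (eventually_ge_atTop 2)).mono ?_
    rintro N ⟨h1, h2⟩
    have hN : (2 : ℝ) ≤ N := by exact_mod_cast h2
    have hlog : 0 < Real.log N := Real.log_pos (by linarith)
    have hp : 0 < (N : ℝ) ^ (α - ε) := Real.rpow_pos_of_pos (by linarith) _
    rw [elog_div _ _ (hp.trans_le h1)]
    apply EReal.coe_le_coe
    rw [le_div_iff₀ hlog]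
    calc (α - ε) * Real.log N = Real.log ((N : ℝ) ^ (α - ε)) := (Real.log_rpow (by linarith) _).symm
      _ ≤ Real.log (u N) := Real.log_le_log hp h1
  apply le_antisymm
  · apply le_of_forall_gt
    intro c hc
    obtain ⟨r, hr1, hr2⟩ := EReal.lt_iff_exists_real_btwn.1 hc
    have hr3 : α < r := by exact_mod_cast hr1
    refine lt_of_le_of_lt ?_ hr2
    have := hup (r - α) (by linarith)
    rw [show α + (r - α) = r by ring] at this
    exact limsup_le_of_le (by isBoundedDefault) this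
  · apply le_of_forall_lt
    intro c hc
    obtain ⟨r, hr1, hr2⟩ := EReal.lt_iff_exists_real_btwn.1 hc
    have hr3 : r < α := by exact_mod_cast hr2
    refine lt_of_lt_of_le hr1 ?_
    have := hlow (α - r) (by linarith)
    rw [show α - (α - r) = r by ring] at this
    exact le_limsup_of_frequently_le this (by isBoundedDefault)

theorem sigma_good_ereal (τ x : ℝ) (hτ : 3 < τ) (hx : Good τ x) :
    limsup (fun N : ℕ => ENNReal.log (ENNReal.ofReal ‖SS x N‖) / ((Real.log N : ℝ) : EReal)) atTop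
      = ((1 - 1 / τ : ℝ) : EReal) :=
  limsup_ereal_of (fun N => ‖SS x N‖) (1 - 1 / τ) (fun _ => norm_nonneg _)
    (fun ε hε => upper_eps τ x hτ hx ε hε) (fun ε hε => lower_eps τ x hτ hx ε hε)

end Pool.Agent.TH851.W
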