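import Mathlib

set_option autoImplicit false

/-!
# A Kusmin-Landau inequality with a sharp constant
-/

namespace Pool.Agent.TH851

open Finset

/-- `e x = exp (2 pi i x)`. -/
noncomputable def e (x : ℝ) : ℂ :=
  Complex.exp (2 * (Real.pi : ℂ) * Complex.I * ((x : ℝ) : ℂ))

lemma e_eq (x : ℝ) : e x = Complex.exp (((2 * Real.pi * x : ℝ) : ℂ) * Complex.I) := by
  unfold e
  congr 1
  push_cast
  ring

lemma norm_e (x : ℝ) : ‖e x‖ = 1 := by
  rw [e_eq, Complex.norm_exp_ofReal_mul_I]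

lemma e_re (x : ℝ) : (e x).re = Real.cos (2 * Real.pi * x) := by
  rw [e_eq, Complex.exp_ofReal_mul_I_re]

lemma e_im (x : ℝ) : (e x).im = Real.sin (2 * Real.pi * x) := by
  rw [e_eq, Complex.exp_ofReal_mul_I_im]

lemma e_add (x y : ℝ) : e (x + y) = e x * e y := by
  unfold e
  rw [← Complex.exp_add]
  congr 1
  push_cast
  ring

lemma e_int (n : ℤ) : e (n : ℝ) = 1 := by
  unfold e
  rw [Complex.exp_eq_one_iff]
  exact ⟨n, by push_cast; ring⟩

lemma e_add_int (x : ℝ) (n : ℤ) : e (x + n) = e x := by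
  rw [e_add, e_int, mul_one]

/-- Abel summation with nonnegative decreasing coefficients. -/
lemma abel_bound (C : ℕ → ℝ) (z : ℕ → ℂ) (hz : ∀ j, ‖z j‖ ≤ 1) (M : ℕ)
    (hC0 : 0 ≤ C 0)
    (hanti : ∀ j, j < M → C (j + 1) ≤ C j) :
    ‖(∑ j ∈ range (M + 1), (C j : ℂ) * (z (j + 1) - z j)) - (C M : ℂ) * z (M + 1)‖
      ≤ 2 * C 0 - C M := by
  induction M with
  | zero =>
    simp only [zero_add, range_one, sum_singleton]
    have : (C 0 : ℂ) * (z 1 - z 0) - (C 0 : ℂ) * z 1 = -((C 0 : ℂ) * z 0) := by ring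
    rw [this, norm_neg, norm_mul, Complex.norm_real, Real.norm_of_nonneg hC0]
    have := hz 0
    nlinarith
  | succ M ih =>
    have ih' := ih (fun j hj => hanti j (by omega))
    rw [sum_range_succ]
    have key : (∑ j ∈ range (M + 1), (C j : ℂ) * (z (j + 1) - z j))
        + (C (M + 1) : ℂ) * (z (M + 1 + 1) - z (M + 1)) - (C (M + 1) : ℂ) * z (M + 1 + 1)
        = ((∑ j ∈ range (M + 1), (C j : ℂ) * (z (j + 1) - z j)) - (C M : ℂ) * z (M + 1))
          + ((C M - C (M + 1) : ℝ) : ℂ) * z (M + 1) := by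
      push_cast
      ring
    rw [key]
    have h1 : ‖((C M - C (M + 1) : ℝ) : ℂ) * z (M + 1)‖ ≤ C M - C (M + 1) := by
      rw [norm_mul, Complex.norm_real, Real.norm_of_nonneg (by linarith [hanti M (by omega)])]
      have := hz (M + 1)
      have h2 := hanti M (by omega)
      nlinarith
    calc _ ≤ _ := norm_add_le _ _
      _ ≤ (2 * C 0 - C M) + (C M - C (M + 1)) := add_le_add ih' h1
      _ = _ := by ring

lemma abel_bound' (C : ℕ → ℝ) (z : ℕ → ℂ) (hz : ∀ j, ‖z j‖ ≤ 1) (M : ℕ)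
    (hC : ∀ j, j < M → 0 ≤ C j)
    (hanti : ∀ j, j + 1 < M → C (j + 1) ≤ C j) (hC0 : 0 ≤ C 0) :
    ‖∑ j ∈ range M, (C j : ℂ) * (z (j + 1) - z j)‖ ≤ 2 * C 0 := by
  rcases M with _ | M
  · simp; linarith
  · have h := abel_bound C z hz M hC0 (fun j hj => hanti j (by omega))
    have h2 : ‖(C M : ℂ) * z (M + 1)‖ ≤ C M := by
      rw [norm_mul, Complex.norm_real, Real.norm_of_nonneg (hC M (by omega))]
      have := hz (M + 1)
      have := hC M (by omega)
      nlinarith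
    calc ‖∑ j ∈ range (M + 1), (C j : ℂ) * (z (j + 1) - z j)‖
        = ‖((∑ j ∈ range (M + 1), (C j : ℂ) * (z (j + 1) - z j)) - (C M : ℂ) * z (M + 1))
            + (C M : ℂ) * z (M + 1)‖ := by congr 1; ring
      _ ≤ _ := norm_add_le _ _
      _ ≤ (2 * C 0 - C M) + C M := add_le_add h h2
      _ = _ := by ring

/-- `z = -(1/2) (z' - z) - (i/2) cot (pi d) (z' - z)` for `z' = e(d) z`. -/
lemma e_step (t t' : ℝ) (hs : Real.sin (Real.pi * (t' - t)) ≠ 0) :
    e t = -(1 / 2) * (e t' - e t)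
      - (Complex.I / 2) * (((Real.cos (Real.pi * (t' - t)) / Real.sin (Real.pi * (t' - t)) : ℝ) : ℂ)
        * (e t' - e t)) := by
  set d := t' - t with hd
  have ht' : e t' = e t * e d := by rw [← e_add]; congr 1; rw [hd]; ring
  have hed : e d = ((Real.cos (Real.pi * d) : ℂ) + (Real.sin (Real.pi * d) : ℂ) * Complex.I) ^ 2 := by
    rw [e_eq]
    rw [show (((2 * Real.pi * d : ℝ) : ℂ) * Complex.I)
      = 2 * ((((Real.pi * d : ℝ)) : ℂ) * Complex.I) by push_cast; ring]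
    rw [two_mul, Complex.exp_add, ← sq, Complex.exp_mul_I]
    rw [← Complex.ofReal_cos, ← Complex.ofReal_sin]
  have hsq : ((Real.cos (Real.pi * d) : ℂ)) ^ 2 + ((Real.sin (Real.pi * d) : ℂ)) ^ 2 = 1 := by
    have := Real.cos_sq_add_sin_sq (Real.pi * d)
    exact_mod_cast this
  rw [ht', hed]
  have hs' : ((Real.sin (Real.pi * d) : ℝ) : ℂ) ≠ 0 := by exact_mod_cast hs
  rw [Complex.ofReal_div]
  set c := ((Real.cos (Real.pi * d) : ℝ) : ℂ)
  set s := ((Real.sin (Real.pi * d) : ℝ) : ℂ)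
  have hI : Complex.I ^ 2 = -1 := Complex.I_sq
  field_simp
  have hc : c ^ 2 = 1 - s ^ 2 := by linear_combination hsq
  -- (c + s I)^2 - 1 = 2 s I (c + s I)
  have h1 : (c + s * Complex.I) ^ 2 - 1 = 2 * s * Complex.I * (c + s * Complex.I) := by
    linear_combination (-s ^ 2) * hI + hsq
  have h2 : (c - s * Complex.I) * (c + s * Complex.I) = 1 := by
    linear_combination (- s ^ 2) * hI + hsq
  linear_combination (e t * (2 * s + 2 * s ^ 2 * Complex.I * (c + s * Complex.I))) * hI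
    + (2 * s * Complex.I ^ 2 * e t) * h2 - (e t * (-s - c * Complex.I)) * h1

/-- `cot x ≤ 1 / x` on `(0, pi/2]`. -/
lemma cot_le {x : ℝ} (h0 : 0 < x) (h1 : x ≤ Real.pi / 2) : Real.cos x / Real.sin x ≤ 1 / x := by
  have hs : 0 < Real.sin x := Real.sin_pos_of_pos_of_lt_pi h0 (by linarith [Real.pi_pos])
  rcases eq_or_lt_of_le h1 with h | h
  · rw [h, Real.cos_pi_div_two]; simp; positivity
  · have hc : 0 < Real.cos x := Real.cos_pos_of_mem_Ioo ⟨by linarith [Real.pi_pos], h⟩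
    have ht := Real.lt_tan h0 h
    rw [Real.tan_eq_sin_div_cos, lt_div_iff₀ hc] at ht
    rw [div_le_div_iff₀ hs h0]
    linarith

lemma cot_nonneg {x : ℝ} (h0 : 0 < x) (h1 : x ≤ Real.pi / 2) :
    0 ≤ Real.cos x / Real.sin x := by
  have hs : 0 < Real.sin x := Real.sin_pos_of_pos_of_lt_pi h0 (by linarith [Real.pi_pos])
  have hc : 0 ≤ Real.cos x := Real.cos_nonneg_of_mem_Icc ⟨by linarith [Real.pi_pos], h1⟩
  positivity

lemma cot_anti {x y : ℝ} (h0 : 0 < x) (hxy : x ≤ y) (h1 : y ≤ Real.pi / 2) :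
    Real.cos y / Real.sin y ≤ Real.cos x / Real.sin x := by
  have hsx : 0 < Real.sin x := Real.sin_pos_of_pos_of_lt_pi h0 (by linarith [Real.pi_pos])
  have hsy : 0 < Real.sin y := Real.sin_pos_of_pos_of_lt_pi (by linarith) (by linarith [Real.pi_pos])
  rw [div_le_div_iff₀ hsy hsx]
  have : 0 ≤ Real.sin (y - x) := Real.sin_nonneg_of_nonneg_of_le_pi (by linarith) (by linarith [Real.pi_pos])
  rw [Real.sin_sub] at this
  linarith

/-- **Kusmin-Landau** with a sharp leading constant: if the increments of `θ 0, …, θ M` are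
positive, nondecreasing and at most `1/2`, then `|∑ e(θ j)| ≤ 2 + 1/(π (θ 1 - θ 0))`. -/
theorem kusmin_landau (θ : ℕ → ℝ) (M : ℕ) (h0 : 0 < θ 1 - θ 0)
    (hmono : ∀ j, j + 1 < M → θ (j + 1) - θ j ≤ θ (j + 2) - θ (j + 1))
    (hhalf : ∀ j, j < M → θ (j + 1) - θ j ≤ 1 / 2) :
    ‖∑ j ∈ range (M + 1), e (θ j)‖ ≤ 2 + 1 / (Real.pi * (θ 1 - θ 0)) := by
  have hpi := Real.pi_pos
  rcases Nat.eq_zero_or_pos M with hM | hM
  · subst hM
    simp only [zero_add, range_one, sum_singleton, norm_e]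
    have : 0 < 1 / (Real.pi * (θ 1 - θ 0)) := by positivity
    linarith
  have hge : ∀ j, j < M → θ 1 - θ 0 ≤ θ (j + 1) - θ j := by
    intro j
    induction j with
    | zero => intro _; simp
    | succ j ih => intro hj; exact (ih (by omega)).trans (hmono j hj)
  set C : ℕ → ℝ := fun j => Real.cos (Real.pi * (θ (j + 1) - θ j)) / Real.sin (Real.pi * (θ (j + 1) - θ j))
    with hC
  have hpos : ∀ j, j < M → 0 < Real.pi * (θ (j + 1) - θ j) := fun j hj =>
    mul_pos hpi (lt_of_lt_of_le h0 (hge j hj))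
  have hle : ∀ j, j < M → Real.pi * (θ (j + 1) - θ j) ≤ Real.pi / 2 := fun j hj => by
    have := hhalf j hj; nlinarith
  have hCnn : ∀ j, j < M → 0 ≤ C j := fun j hj => cot_nonneg (hpos j hj) (hle j hj)
  have hCanti : ∀ j, j + 1 < M → C (j + 1) ≤ C j := fun j hj => by
    apply cot_anti (hpos j (by omega)) _ (hle (j + 1) hj)
    exact mul_le_mul_of_nonneg_left (hmono j hj) hpi.le
  have hstep : ∀ j ∈ range M, e (θ j) = -(1 / 2) * (e (θ (j + 1)) - e (θ j))
      - (Complex.I / 2) * ((C j : ℂ) * (e (θ (j + 1)) - e (θ j))) := by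
    intro j hj
    have hj' := mem_range.1 hj
    apply e_step
    exact (Real.sin_pos_of_pos_of_lt_pi (hpos j hj') (by linarith [hle j hj'])).ne'
  have hsum : ∑ j ∈ range M, e (θ j) = -(1 / 2) * (e (θ M) - e (θ 0))
      - (Complex.I / 2) * (∑ j ∈ range M, (C j : ℂ) * (e (θ (j + 1)) - e (θ j))) := by
    rw [sum_congr rfl hstep, sum_sub_distrib, ← mul_sum, ← mul_sum,
      sum_range_sub (fun j => e (θ j))]
  have hab := abel_bound' C (fun j => e (θ j)) (fun j => (norm_e _).le) M hCnn hCanti (hCnn 0 hM)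
  have h1 : ‖∑ j ∈ range M, e (θ j)‖ ≤ 1 + C 0 := by
    rw [hsum]
    calc _ ≤ ‖-(1 / 2) * (e (θ M) - e (θ 0))‖ + ‖(Complex.I / 2) * (∑ j ∈ range M, (C j : ℂ) * (e (θ (j + 1)) - e (θ j)))‖ := norm_sub_le _ _
      _ ≤ 1 + C 0 := by
        apply add_le_add
        · rw [norm_mul]
          have : ‖e (θ M) - e (θ 0)‖ ≤ 2 := by
            calc _ ≤ ‖e (θ M)‖ + ‖e (θ 0)‖ := norm_sub_le _ _
              _ = 2 := by rw [norm_e, norm_e]; norm_num
          have h2 : ‖(-(1 / 2) : ℂ)‖ = 1 / 2 := by norm_num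
          rw [h2]; linarith
        · rw [norm_mul]
          have h2 : ‖(Complex.I / 2 : ℂ)‖ = 1 / 2 := by simp
          rw [h2]; linarith
  rw [sum_range_succ]
  calc _ ≤ ‖∑ j ∈ range M, e (θ j)‖ + ‖e (θ M)‖ := norm_add_le _ _
    _ ≤ (1 + C 0) + 1 := by rw [norm_e]; linarith
    _ = 2 + C 0 := by ring
    _ ≤ _ := by
      have := cot_le (hpos 0 hM) (hle 0 hM)
      simp only [zero_add] at this
      simp only [hC, zero_add]
      linarith

end Pool.Agent.TH851
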