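import Mathlib
import Pool.Agent.TH851.KL

set_option autoImplicit false

/-!
# The exponential sum of `2 (n/3)^{3/2}` over one block around `3 v^2`
-/

namespace Pool.Agent.TH851

open Finset

/-- Sum of real and imaginary part. -/
def L (z : ℂ) : ℝ := z.re + z.im

lemma L_add (z w : ℂ) : L (z + w) = L z + L w := by simp [L]; ring

lemma L_sum {ι : Type*} (s : Finset ι) (f : ι → ℂ) : L (∑ i ∈ s, f i) = ∑ i ∈ s, L (f i) := by
  simp [L, sum_add_distrib]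

lemma abs_L_le (z : ℂ) : |L z| ≤ 1.4143 * ‖z‖ := by
  have h0 := norm_nonneg z
  apply abs_le_of_sq_le_sq _ (by positivity)
  have h : ‖z‖ ^ 2 = z.re ^ 2 + z.im ^ 2 := by
    rw [← Complex.normSq_eq_norm_sq, Complex.normSq_apply]; ring
  unfold L
  rw [mul_pow, h]
  nlinarith [sq_nonneg (z.re - z.im), sq_nonneg (z.re + z.im), sq_nonneg z.re, sq_nonneg z.im]

lemma L_ge (z : ℂ) : - (1.4143 * ‖z‖) ≤ L z := (abs_le.1 (abs_L_le z)).1

lemma L_le_norm (z : ℂ) : L z ≤ 1.4143 * ‖z‖ := (abs_le.1 (abs_L_le z)).2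

lemma L_e_ge {x : ℝ} (h0 : 0 ≤ x) (h1 : x ≤ 1 / 4) : 1 ≤ L (e x) := by
  unfold L
  rw [e_re, e_im]
  have hpi := Real.pi_pos
  have hc : 0 ≤ Real.cos (2 * Real.pi * x) :=
    Real.cos_nonneg_of_mem_Icc ⟨by nlinarith, by nlinarith⟩
  have hs : 0 ≤ Real.sin (2 * Real.pi * x) :=
    Real.sin_nonneg_of_nonneg_of_le_pi (by positivity) (by nlinarith)
  have h := Real.cos_sq_add_sin_sq (2 * Real.pi * x)
  have hc1 := Real.cos_le_one (2 * Real.pi * x)
  have hs1 := Real.sin_le_one (2 * Real.pi * x)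
  nlinarith

/-- If `t^2 - s^2 = 1/3` then `s ≤ 2 (t^3 - s^3) ≤ t`. -/
lemma inc_bounds {s t : ℝ} (hs : 0 ≤ s) (ht : 0 ≤ t) (h : t ^ 2 - s ^ 2 = 1 / 3) :
    s ≤ 2 * (t ^ 3 - s ^ 3) ∧ 2 * (t ^ 3 - s ^ 3) ≤ t := by
  have hst : s ≤ t := by nlinarith
  constructor
  · have h1 : s = 3 * s * (t ^ 2 - s ^ 2) := by rw [h]; ring
    have h2 : 2 * (t ^ 3 - s ^ 3) - 3 * s * (t ^ 2 - s ^ 2) = (t - s) ^ 2 * (2 * t + s) := by ring
    have h3 : 0 ≤ (t - s) ^ 2 * (2 * t + s) := by positivity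
    linarith
  · have h1 : t = 3 * t * (t ^ 2 - s ^ 2) := by rw [h]; ring
    have h2 : 3 * t * (t ^ 2 - s ^ 2) - 2 * (t ^ 3 - s ^ 3) = (t - s) ^ 2 * (t + 2 * s) := by ring
    have h3 : 0 ≤ (t - s) ^ 2 * (t + 2 * s) := by positivity
    linarith

/-- Right half phase. -/
noncomputable def phi (v h : ℕ) : ℝ :=
  2 * (Real.sqrt ((v : ℝ) ^ 2 + h / 3)) ^ 3 - 2 * (v : ℝ) ^ 3 - v * h

/-- Left half phase. -/
noncomputable def psi (v h : ℕ) : ℝ :=
  2 * (Real.sqrt ((v : ℝ) ^ 2 - h / 3)) ^ 3 - 2 * (v : ℝ) ^ 3 + v * h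

lemma phi_inc (v h : ℕ) : Real.sqrt ((v : ℝ) ^ 2 + h / 3) - v ≤ phi v (h + 1) - phi v h ∧
    phi v (h + 1) - phi v h ≤ Real.sqrt ((v : ℝ) ^ 2 + ((h + 1 : ℕ) : ℝ) / 3) - v := by
  have hs : 0 ≤ (v : ℝ) ^ 2 + h / 3 := by positivity
  have ht : 0 ≤ (v : ℝ) ^ 2 + ((h + 1 : ℕ) : ℝ) / 3 := by positivity
  have := inc_bounds (Real.sqrt_nonneg ((v : ℝ) ^ 2 + h / 3))
    (Real.sqrt_nonneg ((v : ℝ) ^ 2 + ((h + 1 : ℕ) : ℝ) / 3))
    (by rw [Real.sq_sqrt hs, Real.sq_sqrt ht]; push_cast; ring)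
  unfold phi
  constructor
  · have h1 := this.1
    push_cast at *
    linarith
  · have h1 := this.2
    push_cast at *
    linarith

lemma psi_inc (v h : ℕ) (hh : h + 1 ≤ 3 * v) :
    v - Real.sqrt ((v : ℝ) ^ 2 - h / 3) ≤ psi v (h + 1) - psi v h ∧
    psi v (h + 1) - psi v h ≤ v - Real.sqrt ((v : ℝ) ^ 2 - ((h + 1 : ℕ) : ℝ) / 3) := by
  have hv : ((h : ℝ) + 1) ≤ 3 * v := by exact_mod_cast hh
  have hv1 : (1 : ℝ) ≤ v := by
    have : 1 ≤ v := by omega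
    exact_mod_cast this
  have hh0 : (0 : ℝ) ≤ h := Nat.cast_nonneg _
  have ht : 0 ≤ (v : ℝ) ^ 2 - ((h + 1 : ℕ) : ℝ) / 3 := by push_cast; nlinarith
  have hs : 0 ≤ (v : ℝ) ^ 2 - h / 3 := by push_cast at ht; linarith
  have := inc_bounds (Real.sqrt_nonneg ((v : ℝ) ^ 2 - ((h + 1 : ℕ) : ℝ) / 3))
    (Real.sqrt_nonneg ((v : ℝ) ^ 2 - h / 3))
    (by rw [Real.sq_sqrt hs, Real.sq_sqrt ht]; push_cast; ring)
  unfold psi
  constructor
  · have h1 := this.2
    push_cast at *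
    linarith
  · have h1 := this.1
    push_cast at *
    linarith

lemma phi_eq (v h : ℕ) : phi v h = (Real.sqrt ((v : ℝ) ^ 2 + h / 3) - v) ^ 2
    * (2 * Real.sqrt ((v : ℝ) ^ 2 + h / 3) + v) := by
  have hs : 0 ≤ (v : ℝ) ^ 2 + h / 3 := by positivity
  have h1 := Real.sq_sqrt hs
  unfold phi
  set s := Real.sqrt ((v : ℝ) ^ 2 + h / 3)
  have h2 : (h : ℝ) = 3 * (s ^ 2 - v ^ 2) := by linarith
  rw [h2]; ring

lemma psi_eq (v h : ℕ) (hh : h ≤ 3 * v) : psi v h = (Real.sqrt ((v : ℝ) ^ 2 - h / 3) - v) ^ 2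
    * (2 * Real.sqrt ((v : ℝ) ^ 2 - h / 3) + v) := by
  have hv : (h : ℝ) ≤ 3 * v := by exact_mod_cast hh
  have hs : 0 ≤ (v : ℝ) ^ 2 - h / 3 := by
    rcases Nat.eq_zero_or_pos v with h0 | h0
    · subst h0; simp at hv; subst hv; simp
    · have hv1 : (1 : ℝ) ≤ v := by exact_mod_cast h0
      nlinarith
  have h1 := Real.sq_sqrt hs
  unfold psi
  set s := Real.sqrt ((v : ℝ) ^ 2 - h / 3)
  have h2 : (h : ℝ) = 3 * (v ^ 2 - s ^ 2) := by linarith
  rw [h2]; ring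

/-- Middle part, right. -/
lemma phi_mem (v h : ℕ) (hv : 0 < v) (hh : (h : ℝ) ^ 2 ≤ 2.95 * v) :
    0 ≤ phi v h ∧ phi v h ≤ 1 / 4 := by
  have hv' : (0 : ℝ) < v := by exact_mod_cast hv
  have hs : 0 ≤ (v : ℝ) ^ 2 + h / 3 := by positivity
  have h1 := Real.sq_sqrt hs
  rw [phi_eq]
  set s := Real.sqrt ((v : ℝ) ^ 2 + h / 3)
  have hs0 : 0 ≤ s := Real.sqrt_nonneg _
  have hsv : (v : ℝ) ≤ s := by
    apply Real.le_sqrt_of_sq_le
    have : (0 : ℝ) ≤ h := Nat.cast_nonneg _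
    linarith
  constructor
  · positivity
  · have h2 : (h : ℝ) = 3 * ((s - v) * (s + v)) := by linear_combination 3 * h1.symm
    have h3 : 12 * v * ((s - v) ^ 2 * (2 * s + v)) ≤ (h : ℝ) ^ 2 := by
      rw [h2]
      have : 0 ≤ 3 * (s - v) ^ 2 * ((3 * s + v) * (s - v)) := by
        have : 0 ≤ s - v := by linarith
        positivity
      nlinarith
    by_contra hcon
    push Not at hcon
    nlinarith

/-- Middle part, left. -/
lemma psi_mem (v h : ℕ) (hv : 100 ≤ v) (hh : (h : ℝ) ^ 2 ≤ 2.95 * v) :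
    0 ≤ psi v h ∧ psi v h ≤ 1 / 4 := by
  have hv' : (100 : ℝ) ≤ v := by exact_mod_cast hv
  have hh0 : (0 : ℝ) ≤ h := Nat.cast_nonneg _
  have hhv : (h : ℝ) ≤ v := by nlinarith
  have hs : 0 ≤ (v : ℝ) ^ 2 - h / 3 := by nlinarith
  have h1 := Real.sq_sqrt hs
  rw [psi_eq v h (by have : h ≤ v := by exact_mod_cast hhv
                     omega)]
  set s := Real.sqrt ((v : ℝ) ^ 2 - h / 3)
  have hs0 : 0 ≤ s := Real.sqrt_nonneg _
  have hsv : s ≤ v := by
    apply Real.sqrt_le_iff.2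
    constructor
    · positivity
    · linarith
  have hsv2 : 0.99 * v ≤ s := by
    apply Real.le_sqrt_of_sq_le
    nlinarith
  constructor
  · positivity
  · have h2 : (h : ℝ) = 3 * ((v - s) * (s + v)) := by linear_combination 3 * h1
    have h3 : 12 * v * ((s - v) ^ 2 * (2 * s + v)) ≤ 1.0102 * (h : ℝ) ^ 2 := by
      rw [h2]
      have h4 : 12 * v * (2 * s + v) ≤ 1.0102 * 9 * (s + v) ^ 2 := by nlinarith
      have h5 := mul_le_mul_of_nonneg_left h4 (sq_nonneg (s - v))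
      nlinarith
    by_contra hcon
    push Not at hcon
    nlinarith

/-- Tail, right. -/
lemma tail_right (v H : ℕ) (hv : 100 ≤ v) (hH : (H : ℝ) ^ 2 ≤ 2.95 * v) :
    ‖∑ i ∈ range (3 * v - H), e (phi v (H + 1 + i))‖
      ≤ 2 + (6 * v + 1.5) / (Real.pi * (H + 1)) := by
  have hv' : (100 : ℝ) ≤ v := by exact_mod_cast hv
  have hh0 : (0 : ℝ) ≤ H := Nat.cast_nonneg _
  have hhv : (H : ℝ) ≤ v := by nlinarith
  have hhv' : H ≤ v := by exact_mod_cast hhv
  have hpi := Real.pi_pos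
  obtain ⟨M, hM⟩ : ∃ M, 3 * v - H = M + 1 := ⟨3 * v - H - 1, by omega⟩
  rw [hM]
  -- the first increment
  have hs : 0 ≤ (v : ℝ) ^ 2 + ((H + 1 : ℕ) : ℝ) / 3 := by positivity
  have h1 := Real.sq_sqrt hs
  have hinc := (phi_inc v (H + 1)).1
  have hsv : Real.sqrt ((v : ℝ) ^ 2 + ((H + 1 : ℕ) : ℝ) / 3) ≤ v + 1 / 2 := by
    apply Real.sqrt_le_iff.2
    constructor
    · positivity
    · push_cast; nlinarith
  have hs0 : 0 ≤ Real.sqrt ((v : ℝ) ^ 2 + ((H + 1 : ℕ) : ℝ) / 3) := Real.sqrt_nonneg _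
  have hlow : (H + 1 : ℝ) / (6 * v + 1.5) ≤ Real.sqrt ((v : ℝ) ^ 2 + ((H + 1 : ℕ) : ℝ) / 3) - v := by
    set s := Real.sqrt ((v : ℝ) ^ 2 + ((H + 1 : ℕ) : ℝ) / 3)
    rw [div_le_iff₀ (by positivity)]
    have h2 : (H + 1 : ℝ) = 3 * ((s - v) * (s + v)) := by
      push_cast at h1; linear_combination 3 * h1.symm
    have h3 : 0 ≤ s - v := by
      have : (v : ℝ) ≤ s := by
        apply Real.le_sqrt_of_sq_le
        have : (0 : ℝ) ≤ ((H + 1 : ℕ) : ℝ) := Nat.cast_nonneg _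
        linarith
      linarith
    rw [h2]
    nlinarith
  have hd : (H + 1 : ℝ) / (6 * v + 1.5) ≤ phi v (H + 1 + 1) - phi v (H + 1 + 0) := by
    simp only [add_zero]; linarith
  have hdpos : (0 : ℝ) < (H + 1 : ℝ) / (6 * v + 1.5) := by positivity
  have hKL := kusmin_landau (fun i => phi v (H + 1 + i)) M (by linarith)
    (by
      intro j hj
      have ha := (phi_inc v (H + 1 + j)).2
      have hb := (phi_inc v (H + 1 + j + 1)).1
      have e1 : H + 1 + (j + 1) = H + 1 + j + 1 := by ring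
      have e2 : H + 1 + (j + 2) = H + 1 + j + 1 + 1 := by ring
      rw [e1, e2]
      linarith)
    (by
      intro j hj
      have ha := (phi_inc v (H + 1 + j)).2
      have e1 : H + 1 + (j + 1) = H + 1 + j + 1 := by ring
      rw [e1]
      have hb : Real.sqrt ((v : ℝ) ^ 2 + ((H + 1 + j + 1 : ℕ) : ℝ) / 3) ≤ v + 1 / 2 := by
        apply Real.sqrt_le_iff.2
        constructor
        · positivity
        · have : H + 1 + j + 1 ≤ 3 * v := by omega
          have : ((H + 1 + j + 1 : ℕ) : ℝ) ≤ 3 * v := by exact_mod_cast this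
          nlinarith
      linarith)
  refine hKL.trans ?_
  have h5 : 1 / (Real.pi * (phi v (H + 1 + 1) - phi v (H + 1 + 0)))
      ≤ 1 / (Real.pi * ((H + 1 : ℝ) / (6 * v + 1.5))) := by
    apply one_div_le_one_div_of_le (by positivity)
    exact mul_le_mul_of_nonneg_left hd hpi.le
  have h6 : 1 / (Real.pi * ((H + 1 : ℝ) / (6 * v + 1.5))) = (6 * v + 1.5) / (Real.pi * (H + 1)) := by
    field_simp
  linarith

/-- Tail, left. -/
lemma tail_left (v H : ℕ) (hv : 100 ≤ v) (hH : (H : ℝ) ^ 2 ≤ 2.95 * v) :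
    ‖∑ i ∈ range (3 * v - 1 - H), e (psi v (H + i + 1))‖
      ≤ 2 + (6 * v) / (Real.pi * (H + 1)) := by
  have hv' : (100 : ℝ) ≤ v := by exact_mod_cast hv
  have hh0 : (0 : ℝ) ≤ H := Nat.cast_nonneg _
  have hhv : (H : ℝ) ≤ v := by nlinarith
  have hhv' : H ≤ v := by exact_mod_cast hhv
  have hpi := Real.pi_pos
  obtain ⟨M, hM⟩ : ∃ M, 3 * v - 1 - H = M + 1 := ⟨3 * v - 1 - H - 1, by omega⟩
  rw [hM]
  have hs : 0 ≤ (v : ℝ) ^ 2 - ((H + 1 : ℕ) : ℝ) / 3 := by push_cast; nlinarith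
  have h1 := Real.sq_sqrt hs
  have hinc := (psi_inc v (H + 1) (by omega)).1
  have hs0 : 0 ≤ Real.sqrt ((v : ℝ) ^ 2 - ((H + 1 : ℕ) : ℝ) / 3) := Real.sqrt_nonneg _
  have hlow : (H + 1 : ℝ) / (6 * v) ≤ v - Real.sqrt ((v : ℝ) ^ 2 - ((H + 1 : ℕ) : ℝ) / 3) := by
    have hsv : Real.sqrt ((v : ℝ) ^ 2 - ((H + 1 : ℕ) : ℝ) / 3) ≤ v := by
      apply Real.sqrt_le_iff.2
      constructor
      · positivity
      · have : (0 : ℝ) ≤ ((H + 1 : ℕ) : ℝ) := Nat.cast_nonneg _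
        linarith
    set s := Real.sqrt ((v : ℝ) ^ 2 - ((H + 1 : ℕ) : ℝ) / 3)
    rw [div_le_iff₀ (by positivity)]
    have h2 : (H + 1 : ℝ) = 3 * ((v - s) * (s + v)) := by
      push_cast at h1; linear_combination 3 * h1
    have h3 : 0 ≤ v - s := by linarith
    rw [h2]
    nlinarith
  have hd : (H + 1 : ℝ) / (6 * v) ≤ psi v (H + 1 + 1) - psi v (H + 0 + 1) := by
    have : H + 0 + 1 = H + 1 := by ring
    rw [this]; linarith
  have hdpos : (0 : ℝ) < (H + 1 : ℝ) / (6 * v) := by positivity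
  have hKL := kusmin_landau (fun i => psi v (H + i + 1)) M (by linarith)
    (by
      intro j hj
      have ha := (psi_inc v (H + j + 1) (by omega)).2
      have hb := (psi_inc v (H + j + 1 + 1) (by omega)).1
      have e1 : H + (j + 1) + 1 = H + j + 1 + 1 := by ring
      have e2 : H + (j + 2) + 1 = H + j + 1 + 1 + 1 := by ring
      rw [e1, e2]
      linarith)
    (by
      intro j hj
      have ha := (psi_inc v (H + j + 1) (by omega)).2
      have e1 : H + (j + 1) + 1 = H + j + 1 + 1 := by ring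
      rw [e1]
      have hb : (v : ℝ) - 1 / 2 ≤ Real.sqrt ((v : ℝ) ^ 2 - ((H + j + 1 + 1 : ℕ) : ℝ) / 3) := by
        apply Real.le_sqrt_of_sq_le
        have : H + j + 1 + 1 ≤ 3 * v - 1 := by omega
        have : H + j + 1 + 1 + 1 ≤ 3 * v := by omega
        have : ((H + j + 1 + 1 + 1 : ℕ) : ℝ) ≤ 3 * v := by exact_mod_cast this
        push_cast at *
        nlinarith
      linarith)
  refine hKL.trans ?_
  have h5 : 1 / (Real.pi * (psi v (H + 1 + 1) - psi v (H + 0 + 1)))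
      ≤ 1 / (Real.pi * ((H + 1 : ℝ) / (6 * v))) := by
    apply one_div_le_one_div_of_le (by positivity)
    exact mul_le_mul_of_nonneg_left hd hpi.le
  have h6 : 1 / (Real.pi * ((H + 1 : ℝ) / (6 * v))) = (6 * v) / (Real.pi * (H + 1)) := by
    field_simp
  linarith

lemma final_ineq {H q a b c d x y : ℝ} (h : 170 ≤ H) (hq : q ≤ H / 1.68) (ha : H + 1 ≤ a)
    (hb : -(1.4143 * x) ≤ b) (hc : H ≤ c) (hd : -(1.4143 * y) ≤ d)
    (hx : x ≤ 2 + (0.6706 * H + 0.5)) (hy : y ≤ 2 + (0.6706 * H + 0.5)) :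
    0.08 * q ≤ a + b + (c + d) := by
  have h1 : q ≤ 0.5953 * H := by
    refine hq.trans ?_
    rw [div_le_iff₀ (by norm_num)]
    nlinarith
  linarith

/-- The block sum around `3 v^2` in terms of the reduced phases. -/
theorem block_reduced (v : ℕ) (hv : 10000 ≤ v) :
    0.08 * Real.sqrt v ≤ L ((∑ h ∈ range (3 * v + 1), e (phi v h))
      + ∑ j ∈ range (3 * v - 1), e (psi v (j + 1))) := by
  have hv' : (10000 : ℝ) ≤ v := by exact_mod_cast hv
  set H : ℕ := ⌊Real.sqrt (2.95 * v)⌋₊ with hHdef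
  have hq0 : 0 ≤ Real.sqrt (2.95 * v) := Real.sqrt_nonneg _
  have hq := Real.sq_sqrt (show (0 : ℝ) ≤ 2.95 * v by positivity)
  have hH1 : (H : ℝ) ≤ Real.sqrt (2.95 * v) := Nat.floor_le hq0
  have hH2 : Real.sqrt (2.95 * v) < H + 1 := Nat.lt_floor_add_one _
  have hh0 : (0 : ℝ) ≤ H := Nat.cast_nonneg _
  have hHup : (H : ℝ) ^ 2 ≤ 2.95 * v := by nlinarith
  have hqlow : 171 ≤ Real.sqrt (2.95 * v) := by
    apply Real.le_sqrt_of_sq_le; nlinarith
  have hHlow : 2.85 * (v : ℝ) ≤ (H : ℝ) ^ 2 := by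
    have h1 : 0 ≤ Real.sqrt (2.95 * v) - 1 := by linarith
    have h2 : (Real.sqrt (2.95 * v) - 1) ^ 2 ≤ (H : ℝ) ^ 2 := by
      apply pow_le_pow_left₀ h1; linarith
    nlinarith
  have hH170 : (170 : ℝ) ≤ H := by linarith
  have hhv : (H : ℝ) ≤ v := by nlinarith
  have hhv' : H ≤ v := by exact_mod_cast hhv
  -- split
  have hsplit1 : ∑ h ∈ range (3 * v + 1), e (phi v h)
      = ∑ h ∈ range (H + 1), e (phi v h) + ∑ i ∈ range (3 * v - H), e (phi v (H + 1 + i)) := by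
    have : 3 * v + 1 = (H + 1) + (3 * v - H) := by omega
    rw [this, sum_range_add]
  have hsplit2 : ∑ j ∈ range (3 * v - 1), e (psi v (j + 1))
      = ∑ j ∈ range H, e (psi v (j + 1)) + ∑ i ∈ range (3 * v - 1 - H), e (psi v (H + i + 1)) := by
    have : 3 * v - 1 = H + (3 * v - 1 - H) := by omega
    conv_lhs => rw [this]
    rw [sum_range_add]
  have hmid1 : (H + 1 : ℝ) ≤ L (∑ h ∈ range (H + 1), e (phi v h)) := by
    rw [L_sum]
    calc (H + 1 : ℝ) = ∑ h ∈ range (H + 1), (1 : ℝ) := by simp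
      _ ≤ _ := by
        apply sum_le_sum
        intro h hh
        have hh' : h ≤ H := by have := mem_range.1 hh; omega
        have hh'' : (h : ℝ) ≤ H := by exact_mod_cast hh'
        have hh0' : (0 : ℝ) ≤ h := Nat.cast_nonneg _
        have := phi_mem v h (by omega) (by nlinarith)
        exact L_e_ge this.1 this.2
  have hmid2 : (H : ℝ) ≤ L (∑ j ∈ range H, e (psi v (j + 1))) := by
    rw [L_sum]
    calc (H : ℝ) = ∑ h ∈ range H, (1 : ℝ) := by simp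
      _ ≤ _ := by
        apply sum_le_sum
        intro h hh
        have hh' : h + 1 ≤ H := by have := mem_range.1 hh; omega
        have hh'' : ((h + 1 : ℕ) : ℝ) ≤ H := by exact_mod_cast hh'
        have hh0' : (0 : ℝ) ≤ ((h + 1 : ℕ) : ℝ) := Nat.cast_nonneg _
        have := psi_mem v (h + 1) (by omega) (by nlinarith)
        exact L_e_ge this.1 this.2
  have ht1 := tail_right v H (by omega) hHup
  have ht2 := tail_left v H (by omega) hHup
  rw [hsplit1, hsplit2, L_add, L_add, L_add]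
  have hL1 := L_ge (∑ i ∈ range (3 * v - H), e (phi v (H + 1 + i)))
  have hL2 := L_ge (∑ i ∈ range (3 * v - 1 - H), e (psi v (H + i + 1)))
  have hpi : (3.14 : ℝ) < Real.pi := Real.pi_gt_d2
  have hfrac1 : (6 * (v : ℝ) + 1.5) / (Real.pi * (H + 1)) ≤ 0.6706 * H + 0.5 := by
    rw [div_le_iff₀ (by positivity)]
    have h1 : (0.6706 * (H : ℝ) + 0.5) * (3.14 * (H + 1)) ≤ (0.6706 * (H : ℝ) + 0.5) * (Real.pi * (H + 1)) := by
      apply mul_le_mul_of_nonneg_left _ (by positivity)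
      apply mul_le_mul_of_nonneg_right hpi.le (by positivity)
    refine le_trans ?_ h1
    nlinarith
  have hfrac2 : (6 * (v : ℝ)) / (Real.pi * (H + 1)) ≤ 0.6706 * H + 0.5 := by
    refine le_trans ?_ hfrac1
    apply div_le_div_of_nonneg_right _ (by positivity)
    linarith
  have hsv : Real.sqrt v ≤ H / 1.68 := by
    apply Real.sqrt_le_iff.2
    constructor
    · positivity
    · rw [div_pow]
      rw [le_div_iff₀ (by norm_num)]
      nlinarith
  exact final_ineq hH170 hsv hmid1 hL1 hmid2 hL2 (ht1.trans (by linarith)) (ht2.trans (by linarith))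

end Pool.Agent.TH851
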