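import Mathlib
import Pool.Agent.TH851.Block

set_option autoImplicit false

/-!
# The sum of `e (2 (n/3)^{3/2})` over `N ≤ n ≤ N'` is of order `N^{3/4}`
-/

namespace Pool.Agent.TH851

open Finset

/-- The phase `2 (x/3)^{3/2}`. -/
noncomputable def f0 (x : ℝ) : ℝ := 2 * (x / 3) ^ (3 / 2 : ℝ)

lemma f0_eq {x : ℝ} (hx : 0 ≤ x) : f0 x = 2 * (Real.sqrt (x / 3)) ^ 3 := by
  unfold f0
  congr 1
  rw [Real.sqrt_eq_rpow, ← Real.rpow_natCast, ← Real.rpow_mul (by positivity)]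
  norm_num

lemma e_f0_right (v h : ℕ) : e (f0 ((3 * v ^ 2 + h : ℕ) : ℝ)) = e (phi v h) := by
  rw [f0_eq (Nat.cast_nonneg _)]
  have : ((3 * v ^ 2 + h : ℕ) : ℝ) / 3 = (v : ℝ) ^ 2 + h / 3 := by push_cast; ring
  rw [this]
  have h2 : 2 * Real.sqrt ((v : ℝ) ^ 2 + h / 3) ^ 3 = phi v h + ((2 * (v : ℤ) ^ 3 + v * h : ℤ) : ℝ) := by
    unfold phi; push_cast; ring
  rw [h2, e_add_int]

lemma e_f0_left (v h : ℕ) (hh : h ≤ 3 * v ^ 2) : e (f0 ((3 * v ^ 2 - h : ℕ) : ℝ)) = e (psi v h) := by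
  rw [f0_eq (Nat.cast_nonneg _)]
  have : ((3 * v ^ 2 - h : ℕ) : ℝ) / 3 = (v : ℝ) ^ 2 - h / 3 := by
    rw [Nat.cast_sub hh]; push_cast; ring
  rw [this]
  have h2 : 2 * Real.sqrt ((v : ℝ) ^ 2 - h / 3) ^ 3 = psi v h + ((2 * (v : ℤ) ^ 3 - v * h : ℤ) : ℝ) := by
    unfold psi; push_cast; ring
  rw [h2, e_add_int]

/-- Left end points of the blocks. -/
def T (k : ℕ) : ℕ := 3 * k * (k + 1) + 1

lemma T_mono {a b : ℕ} (h : a ≤ b) : T a ≤ T b := by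
  unfold T
  have : a * (a + 1) ≤ b * (b + 1) := Nat.mul_le_mul h (by omega)
  nlinarith

lemma block_eq (k : ℕ) : ∑ n ∈ Ico (T k) (T (k + 1)), e (f0 (n : ℝ))
    = (∑ h ∈ range (3 * (k + 1) + 1), e (phi (k + 1) h))
      + ∑ j ∈ range (3 * (k + 1) - 1), e (psi (k + 1) (j + 1)) := by
  have h1 : T k = 3 * (k + 1) ^ 2 - (3 * (k + 1) - 1) := by
    unfold T
    have : 3 * (k + 1) ^ 2 = 3 * k * (k + 1) + 1 + (3 * (k + 1) - 1) := by
      have : 3 * (k + 1) - 1 = 3 * k + 2 := by omega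
      rw [this]; ring
    omega
  have h2 : T (k + 1) = 3 * (k + 1) ^ 2 + (3 * (k + 1) + 1) := by
    unfold T; ring
  have hle : 3 * (k + 1) - 1 ≤ 3 * (k + 1) ^ 2 := by
    have : 3 * (k + 1) ≤ 3 * (k + 1) ^ 2 := by nlinarith
    omega
  rw [← sum_Ico_consecutive _ (show T k ≤ 3 * (k + 1) ^ 2 by rw [h1]; omega)
    (show 3 * (k + 1) ^ 2 ≤ T (k + 1) by rw [h2]; omega)]
  rw [add_comm]
  congr 1
  · rw [h2, sum_Ico_eq_sum_range]
    have : 3 * (k + 1) ^ 2 + (3 * (k + 1) + 1) - 3 * (k + 1) ^ 2 = 3 * (k + 1) + 1 := by omega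
    rw [this]
    apply sum_congr rfl
    intro h _
    exact e_f0_right (k + 1) h
  · rw [h1, sum_Ico_eq_sum_range]
    have : 3 * (k + 1) ^ 2 - (3 * (k + 1) ^ 2 - (3 * (k + 1) - 1)) = 3 * (k + 1) - 1 := by omega
    rw [this, ← sum_range_reflect]
    apply sum_congr rfl
    intro j hj
    have hj' := mem_range.1 hj
    rw [← e_f0_left (k + 1) (j + 1) (by omega)]
    congr 3
    omega

lemma block_lower (k : ℕ) (hk : 10000 ≤ k) :
    0.08 * Real.sqrt k ≤ L (∑ n ∈ Ico (T k) (T (k + 1)), e (f0 (n : ℝ))) := by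
  rw [block_eq]
  refine le_trans ?_ (block_reduced (k + 1) (by omega))
  have : Real.sqrt k ≤ Real.sqrt ((k + 1 : ℕ) : ℝ) := Real.sqrt_le_sqrt (by push_cast; linarith)
  linarith

lemma sum_blocks (a b : ℕ) (hab : a ≤ b) : ∑ n ∈ Ico (T a) (T b), e (f0 (n : ℝ))
    = ∑ k ∈ Ico a b, ∑ n ∈ Ico (T k) (T (k + 1)), e (f0 (n : ℝ)) := by
  induction b, hab using Nat.le_induction with
  | base => simp
  | succ b hab ih =>
    rw [sum_Ico_succ_top hab, ← ih, sum_Ico_consecutive _ (T_mono hab) (T_mono (by omega))]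

/-- The exponential sum over `48 m^2 + 12 m + 1 ≤ n ≤ 75 m^2 + 15 m`. -/
theorem big_sum (m : ℕ) (hm : 2500 ≤ m) :
    0.11 * ((m : ℝ) * Real.sqrt m) ≤ ‖∑ n ∈ Icc (48 * m ^ 2 + 12 * m + 1 : ℕ) (75 * m ^ 2 + 15 * m : ℕ),
      e (f0 (n : ℝ))‖ := by
  have hI : Icc (48 * m ^ 2 + 12 * m + 1) (75 * m ^ 2 + 15 * m) = Ico (T (4 * m)) (T (5 * m)) := by
    have h1 : T (4 * m) = 48 * m ^ 2 + 12 * m + 1 := by unfold T; ring
    have h2 : T (5 * m) = 75 * m ^ 2 + 15 * m + 1 := by unfold T; ring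
    rw [h1, h2]
    ext x
    simp only [mem_Icc, mem_Ico]
    omega
  rw [hI]
  have hs : Real.sqrt ((4 * m : ℕ) : ℝ) = 2 * Real.sqrt m := by
    push_cast
    rw [Real.sqrt_mul (by norm_num), show (4 : ℝ) = 2 ^ 2 by norm_num, Real.sqrt_sq (by norm_num)]
  have hlow : (m : ℝ) * (0.16 * Real.sqrt m) ≤ L (∑ n ∈ Ico (T (4 * m)) (T (5 * m)), e (f0 (n : ℝ))) := by
    rw [sum_blocks _ _ (by omega), L_sum]
    calc (m : ℝ) * (0.16 * Real.sqrt m) = ∑ k ∈ Ico (4 * m) (5 * m), (0.16 * Real.sqrt m) := by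
          rw [sum_const, Nat.card_Ico, nsmul_eq_mul]
          have : 5 * m - 4 * m = m := by omega
          rw [this]
      _ ≤ _ := by
        apply sum_le_sum
        intro k hk
        have hk' := (mem_Ico.1 hk).1
        refine le_trans ?_ (block_lower k (by omega))
        have h3 : Real.sqrt ((4 * m : ℕ) : ℝ) ≤ Real.sqrt k :=
          Real.sqrt_le_sqrt (by exact_mod_cast hk')
        rw [hs] at h3
        linarith
  have h4 := L_le_norm (∑ n ∈ Ico (T (4 * m)) (T (5 * m)), e (f0 (n : ℝ)))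
  have h5 : 0 ≤ (m : ℝ) * Real.sqrt m := by positivity
  nlinarith

end Pool.Agent.TH851
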