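import Mathlib
import Pool.Agent.TH851.Big

set_option autoImplicit false

/-!
# Admissibility of `2 (x/3)^{3/2}` and the failure of bounds below `N^{3/4}`
-/

namespace Pool.Agent.TH851

open Finset

/-- Coefficients of the derivatives of `f0`. -/
noncomputable def coefA : ℕ → ℝ
  | 0 => 2 / (3 : ℝ) ^ (3 / 2 : ℝ)
  | (j + 1) => coefA j * (3 / 2 - j)

lemma coefA_ne (j : ℕ) : coefA j ≠ 0 := by
  induction j with
  | zero => unfold coefA; positivity
  | succ j ih =>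
    unfold coefA
    apply mul_ne_zero ih
    intro h
    have h1 : (3 : ℝ) = 2 * j := by linarith
    have h2 : (3 : ℕ) = 2 * j := by exact_mod_cast h1
    omega

lemma f0_eq' {x : ℝ} (hx : 0 ≤ x) : f0 x = coefA 0 * x ^ (3 / 2 - ((0 : ℕ) : ℝ)) := by
  unfold f0 coefA
  rw [Real.div_rpow hx (by norm_num)]
  simp only [Nat.cast_zero, sub_zero]
  ring

lemma iter_f0 {N : ℝ} (hN : 2 ≤ N) (j : ℕ) : ∀ x ∈ Set.Icc N (2 * N),
    iteratedDerivWithin j f0 (Set.Icc N (2 * N)) x = coefA j * x ^ (3 / 2 - (j : ℝ)) := by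
  induction j with
  | zero =>
    intro x hx
    rw [iteratedDerivWithin_zero]
    exact f0_eq' (by linarith [hx.1])
  | succ j ih =>
    intro x hx
    rw [iteratedDerivWithin_succ]
    have hx0 : 0 < x := by linarith [hx.1]
    rw [derivWithin_congr (f := fun y => coefA j * y ^ (3 / 2 - (j : ℝ))) ih (ih x hx)]
    have hd : HasDerivAt (fun y : ℝ => coefA j * y ^ (3 / 2 - (j : ℝ)))
        (coefA j * ((3 / 2 - (j : ℝ)) * x ^ (3 / 2 - (j : ℝ) - 1))) x :=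
      (Real.hasDerivAt_rpow_const (Or.inl hx0.ne')).const_mul _
    have hu : UniqueDiffWithinAt ℝ (Set.Icc N (2 * N)) x :=
      uniqueDiffOn_Icc (by linarith) x hx
    rw [hd.hasDerivWithinAt.derivWithin hu]
    rw [show coefA (j + 1) = coefA j * (3 / 2 - j) from rfl]
    push_cast
    rw [show (3 / 2 - (j : ℝ) - 1) = 3 / 2 - ((j : ℝ) + 1) by ring]
    ring

lemma contDiff_f0 {N : ℝ} (hN : 2 ≤ N) : ContDiffOn ℝ (⊤ : ℕ∞) f0 (Set.Icc N (2 * N)) := by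
  unfold f0
  apply ContDiffOn.mul contDiffOn_const
  intro x hx
  have hx0 : 0 < x := by linarith [hx.1]
  apply ContDiffWithinAt.rpow_const_of_ne
  · exact (contDiff_id.div_const 3).contDiffWithinAt
  · positivity

/-- Lower constants. -/
noncomputable def cLow (j : ℕ) : ℝ := |coefA j| * (1 / 2) ^ j

/-- Upper constants. -/
noncomputable def cUp (j : ℕ) : ℝ := |coefA j| * 4

lemma cLow_pos (j : ℕ) : 0 < cLow j := by
  have := abs_pos.2 (coefA_ne j)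
  unfold cLow; positivity

lemma cUp_pos (j : ℕ) : 0 < cUp j := by
  have := abs_pos.2 (coefA_ne j)
  unfold cUp; positivity

/-- `f0` is admissible at every scale `N ≥ 2` with `F = N^{3/2}`. -/
lemma adm_f0 {N : ℝ} (hN : 2 ≤ N) (j : ℕ) : ∀ x ∈ Set.Icc N (2 * N),
    cLow j * N ^ (3 / 2 : ℝ) / N ^ j ≤ |iteratedDerivWithin j f0 (Set.Icc N (2 * N)) x| ∧
    |iteratedDerivWithin j f0 (Set.Icc N (2 * N)) x| ≤ cUp j * N ^ (3 / 2 : ℝ) / N ^ j := by
  intro x hx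
  rw [iter_f0 hN j x hx]
  have hN0 : 0 < N := by linarith
  have hx0 : 0 < x := by linarith [hx.1]
  have hr : 1 ≤ x / N := by rw [le_div_iff₀ hN0]; linarith [hx.1]
  have hr2 : x / N ≤ 2 := by rw [div_le_iff₀ hN0]; linarith [hx.2]
  have hr0 : 0 < x / N := by positivity
  have hxe : x = N * (x / N) := by field_simp
  have hpow : x ^ (3 / 2 - (j : ℝ)) = (N ^ (3 / 2 : ℝ) / N ^ j) * (x / N) ^ (3 / 2 - (j : ℝ)) := by
    conv_lhs => rw [hxe]
    rw [Real.mul_rpow hN0.le hr0.le]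
    congr 1
    rw [Real.rpow_sub hN0, Real.rpow_natCast]
  have hq : 0 < N ^ (3 / 2 : ℝ) / N ^ j := by positivity
  have hA := abs_pos.2 (coefA_ne j)
  have hlow : (1 / 2 : ℝ) ^ j ≤ (x / N) ^ (3 / 2 - (j : ℝ)) := by
    rw [Real.rpow_sub hr0, Real.rpow_natCast]
    rw [div_pow, one_pow]
    apply div_le_div₀
    · positivity
    · exact Real.one_le_rpow hr (by norm_num)
    · positivity
    · exact pow_le_pow_left₀ hr0.le hr2 j
  have hup : (x / N) ^ (3 / 2 - (j : ℝ)) ≤ 4 := by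
    calc (x / N) ^ (3 / 2 - (j : ℝ)) ≤ (x / N) ^ (2 : ℝ) := by
          apply Real.rpow_le_rpow_of_exponent_le hr
          have : (0 : ℝ) ≤ j := Nat.cast_nonneg _
          linarith
      _ ≤ (2 : ℝ) ^ (2 : ℝ) := Real.rpow_le_rpow hr0.le hr2 (by norm_num)
      _ = 4 := by norm_num
  have hpp : 0 < (x / N) ^ (3 / 2 - (j : ℝ)) := Real.rpow_pos_of_pos hr0 _
  have habs : |coefA j * x ^ (3 / 2 - (j : ℝ))|
      = |coefA j| * ((N ^ (3 / 2 : ℝ) / N ^ j) * (x / N) ^ (3 / 2 - (j : ℝ))) := by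
    rw [abs_mul, hpow, abs_of_pos (mul_pos hq hpp)]
  rw [habs]
  constructor
  · unfold cLow
    have : |coefA j| * (1 / 2) ^ j * N ^ (3 / 2 : ℝ) / N ^ j
        = |coefA j| * ((N ^ (3 / 2 : ℝ) / N ^ j) * (1 / 2) ^ j) := by ring
    rw [this]
    apply mul_le_mul_of_nonneg_left _ hA.le
    exact mul_le_mul_of_nonneg_left hlow hq.le
  · unfold cUp
    have : |coefA j| * 4 * N ^ (3 / 2 : ℝ) / N ^ j
        = |coefA j| * ((N ^ (3 / 2 : ℝ) / N ^ j) * 4) := by ring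
    rw [this]
    apply mul_le_mul_of_nonneg_left _ hA.le
    exact mul_le_mul_of_nonneg_left hup hq.le

/-- For every `σ < 3/4` and every `K`, some scale `N` has a partial sum exceeding `K N^σ`. -/
theorem exceed (σ : ℝ) (hσ : σ < 3 / 4) (K : ℝ) : ∃ N N' : ℝ, 2 ≤ N ∧ N ≤ N' ∧ N' ≤ 2 * N ∧
    K * N ^ σ < ‖∑ n ∈ Finset.Icc ⌈N⌉₊ ⌊N'⌋₊, e (f0 (n : ℝ))‖ := by
  have hδ : 0 < 3 / 4 - σ := by linarith
  have ht : Filter.Tendsto (fun m : ℕ => ((m : ℝ)) ^ (3 / 4 - σ)) Filter.atTop Filter.atTop :=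
    (tendsto_rpow_atTop hδ).comp tendsto_natCast_atTop_atTop
  set c0 : ℝ := 0.11 / (61 : ℝ) ^ (3 / 4 : ℝ) with hc0
  have hc0pos : 0 < c0 := by rw [hc0]; positivity
  obtain ⟨m, hm1, hm2⟩ := ((Filter.eventually_ge_atTop 2500).and
    (ht.eventually_gt_atTop (K / c0))).exists
  have hm1' : (2500 : ℝ) ≤ m := by exact_mod_cast hm1
  refine ⟨((48 * m ^ 2 + 12 * m + 1 : ℕ) : ℝ), ((75 * m ^ 2 + 15 * m : ℕ) : ℝ), ?_, ?_, ?_, ?_⟩
  · push_cast; nlinarith
  · push_cast; nlinarith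
  · push_cast; nlinarith
  · rw [Nat.ceil_natCast, Nat.floor_natCast]
    refine lt_of_lt_of_le ?_ (big_sum m hm1)
    set N : ℝ := ((48 * m ^ 2 + 12 * m + 1 : ℕ) : ℝ) with hN
    have hNm : (m : ℝ) ≤ N := by rw [hN]; push_cast; nlinarith
    have hN61 : N ≤ 61 * (m : ℝ) ^ 2 := by rw [hN]; push_cast; nlinarith
    have hN0 : 0 < N := by linarith
    have hm0 : (0 : ℝ) < m := by linarith
    -- m sqrt m = (m^2)^{3/4}
    have h1 : (m : ℝ) * Real.sqrt m = ((m : ℝ) ^ 2) ^ (3 / 4 : ℝ) := by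
      rw [← Real.rpow_natCast, ← Real.rpow_mul hm0.le, Real.sqrt_eq_rpow]
      nth_rewrite 1 [← Real.rpow_one (m : ℝ)]
      rw [← Real.rpow_add hm0]
      norm_num
    have h2 : (N / 61) ^ (3 / 4 : ℝ) ≤ (m : ℝ) * Real.sqrt m := by
      rw [h1]
      apply Real.rpow_le_rpow (by positivity) _ (by norm_num)
      rw [div_le_iff₀ (by norm_num)]; linarith
    have h3 : c0 * N ^ (3 / 4 : ℝ) ≤ 0.11 * ((m : ℝ) * Real.sqrt m) := by
      have : c0 * N ^ (3 / 4 : ℝ) = 0.11 * (N / 61) ^ (3 / 4 : ℝ) := by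
        rw [hc0, Real.div_rpow hN0.le (by norm_num)]; ring
      rw [this]; linarith
    refine lt_of_lt_of_le ?_ h3
    have h4 : N ^ (3 / 4 : ℝ) = N ^ (3 / 4 - σ) * N ^ σ := by
      rw [← Real.rpow_add hN0]; congr 1; ring
    rw [h4, ← mul_assoc]
    apply mul_lt_mul_of_pos_right _ (Real.rpow_pos_of_pos hN0 _)
    have h5 : (m : ℝ) ^ (3 / 4 - σ) ≤ N ^ (3 / 4 - σ) :=
      Real.rpow_le_rpow hm0.le hNm hδ.le
    have h6 : K / c0 < N ^ (3 / 4 - σ) := lt_of_lt_of_le hm2 h5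
    rw [div_lt_iff₀ hc0pos] at h6
    linarith

end Pool.Agent.TH851
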